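import Mathlib
import Pool.Agent.PNB.Defs
import Pool.Agent.W711.KC.Grp

/-!
# A nef and big class without semipositive representatives on a compact Kähler surface (MP_4ff127_gt)

`X = Γ \ (ℍ × ℙ¹)`, where the torsion free cocompact group `Γ = CG ⊂ SL(2, ℝ)` acts diagonally by
Möbius transformations. The curve `C` is the image of the diagonal, `C² = 2 - 2 g`. With
`P = |w - z|²`, `Q = |w - z̄|²`, `y = Im z` the class is `dd^c (log (Q + P) - 2 log y) = [C] + 2 [hyp]`.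

This file: definitions and the statements of the parts.
-/

set_option autoImplicit false

open scoped Manifold ContDiff Topology ComplexConjugate MatrixGroups UpperHalfPlane
open Set Filter Metric MeasureTheory

namespace Pool.Agent.Run7.h532.KS

open Pool.Agent.PNB (laplaceAtZero ClosedForm IsHolDisc IsPshOn)
open Pool.Agent.W711.KC (jj nn CG)

/-- the model space -/
abbrev E : Type := ℂ × ℂ

/-- `ℍ × ℂ`, coordinates `p = (z, w)` -/
def UU : Set E := {p | 0 < p.1.im}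

/-- the diagonal action on `ℍ × ℂ`, used where `jj g p.2 ≠ 0` -/
noncomputable def FF (g : SL(2, ℝ)) (p : E) : E := (nn g p.1 / jj g p.1, nn g p.2 / jj g p.2)

/-- `P = |w - z|²` -/
noncomputable def PP (p : E) : ℝ := Complex.normSq (p.2 - p.1)

/-- `Q = |w - z̄|²` -/
noncomputable def QQ (p : E) : ℝ := Complex.normSq (p.2 - conj p.1)

/-- the potential `log (Q + a P) - k log (Im z)` -/
noncomputable def Psi (a k : ℝ) (p : E) : ℝ := Real.log (QQ p + a * PP p) - k * Real.log p.1.im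

/-- four times the Levi form of `Psi a k` at `p` in the direction `v` (the Laplacian along a
holomorphic disc with derivative `v`) -/
noncomputable def levF (a k : ℝ) (p v : E) : ℝ :=
  4 * (4 * a * p.1.im ^ 2 * Complex.normSq v.2 +
    (4 * a * p.2.im ^ 2 + k * (QQ p + a * PP p) ^ 2 / (4 * p.1.im ^ 2)) * Complex.normSq v.1 +
    2 * (1 + a) * ((conj p.2 - p.1) ^ 2 * v.2 * conj v.1).re) / (QQ p + a * PP p) ^ 2

/-! ### The parts -/

/-- LEVI: the Laplacian of `Psi a k` along a holomorphic disc `ζ ↦ (z ζ, w ζ)` in `ℍ × ℂ`. -/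
def S_LEVI : Prop := ∀ (a k r : ℝ) (z w : ℂ → ℂ), 0 < a → 0 < r →
  DifferentiableOn ℂ z (ball 0 r) → DifferentiableOn ℂ w (ball 0 r) →
  (∀ ζ ∈ ball (0 : ℂ) r, 0 < (z ζ).im) →
  laplaceAtZero (fun ζ => Psi a k (z ζ, w ζ)) = levF a k (z 0, w 0) (deriv z 0, deriv w 0)

/-- PLU: `Psi` changes by a pluriharmonic function under the group. -/
def S_PLU : Prop := ∀ (a k : ℝ) (g : SL(2, ℝ)) (p : E), 0 < a → p ∈ UU → jj g p.2 ≠ 0 →
  FF g p ∈ UU ∧
  PP (FF g p) = PP p / (Complex.normSq (jj g p.1) * Complex.normSq (jj g p.2)) ∧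
  QQ (FF g p) = QQ p / (Complex.normSq (jj g p.1) * Complex.normSq (jj g p.2)) ∧
  Psi a k (FF g p) = Psi a k p - Real.log (Complex.normSq (jj g p.2)) +
    (k - 1) * Real.log (Complex.normSq (jj g p.1))

/-- POS, part 1: semipositivity. -/
def S_POS1 : Prop := ∀ (a k : ℝ) (p v : E), 0 < a → 2 ≤ k → 1 ≤ a * (k - 2) → p ∈ UU →
  0 ≤ levF a k p v

/-- POS, part 2: the Kähler form. -/
def S_POS2 : Prop := ∀ p v : E, p ∈ UU → v ≠ 0 → 0 < levF 1 5 p v

/-- POS, part 3: the dependence on `k`. With part 1 this gives `levF a k ≥ levF a k' - ε levF 1 5`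
(NEF) as follows: `levF a (2 + ε) p v ≥ 0`, `a = 1 / ε`, and
`levF a 2 p v = levF a (2 + ε) p v - ε |v.1|² / y² ≥ - ε |v.1|² / y² ≥ - ε levF 1 5 p v`. -/
def S_POS3 : Prop := (∀ (a k k' : ℝ) (p v : E), 0 < a → p ∈ UU →
    levF a k p v = levF a k' p v + (k - k') * (Complex.normSq v.1 / p.1.im ^ 2)) ∧
  (∀ p v : E, p ∈ UU → Complex.normSq v.1 / p.1.im ^ 2 ≤ levF 1 5 p v) ∧
  ∀ ε : ℝ, 0 < ε → ∀ p v : E, p ∈ UU → -(ε * levF 1 5 p v) ≤ levF (1 / ε) 2 p v

/-- JEN: sub-mean value property over the unit circle for the potential of the Kähler current. -/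
def S_JEN : Prop := ∀ (R : ℝ) (z w : ℂ → ℂ) (g : ℂ → ℝ), 1 < R →
  DifferentiableOn ℂ z (ball 0 R) → DifferentiableOn ℂ w (ball 0 R) →
  (∀ ζ ∈ ball (0 : ℂ) R, 0 < (z ζ).im) → Continuous g →
  (∀ ζ : ℂ, ‖ζ‖ = 1 → w ζ ≠ z ζ →
    (1 / 2) * Real.log (PP (z ζ, w ζ)) + (1 / 4) * Psi 1 3 (z ζ, w ζ) ≤ g ζ) →
  w 0 ≠ z 0 →
  (1 / 2) * Real.log (PP (z 0, w 0)) + (1 / 4) * Psi 1 3 (z 0, w 0) ≤ Real.circleAverage g 0 1

/-- NOT: there is no invariant smooth function `u` with `dd^c (Psi 1 2 + u) ≥ 0`. -/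
def S_NOT : Prop := ∀ u : E → ℝ, ContDiffOn ℝ ∞ u UU →
  (∀ γ ∈ CG, ∀ p ∈ UU, jj γ p.2 ≠ 0 → u (FF γ p) = u p) →
  (∀ p ∈ UU, ∀ v : E, 0 ≤ levF 1 2 p v + laplaceAtZero (fun ζ => u (p + ζ • v))) → False

/-! ### The model of the manifold -/

/-- `X` is the quotient of `ℍ × ℙ¹`; the map `qq g` is `(z, w) ↦` the class of `(g z, g w)`,
`w ∈ ℂ`. -/
structure IsQ (X : Type) [TopologicalSpace X] [ChartedSpace E X] (qq : SL(2, ℝ) → E → X) :
    Prop where
  atlas_spec : ∀ e ∈ atlas E X, ∃ g, e.target ⊆ UU ∧ ∀ p ∈ e.target, e.symm p = qq g p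
  exists_chart : ∀ g, ∀ p ∈ UU, ∃ e ∈ atlas E X, p ∈ e.target ∧ e.target ⊆ UU ∧
    ∀ p' ∈ e.target, e.symm p' = qq g p'
  eq_iff : ∀ g g', ∀ p ∈ UU, ∀ p' ∈ UU, qq g p = qq g' p' ↔
    ∃ γ ∈ CG, jj (g'⁻¹ * γ * g) p.2 ≠ 0 ∧ p' = FF (g'⁻¹ * γ * g) p
  cont : ∀ g, ContinuousOn (qq g) UU

/-- MAN: the manifold. -/
def S_MAN : Prop := ∃ (X : Type) (_ : TopologicalSpace X) (_ : CompactSpace X) (_ : T2Space X)
    (_ : ConnectedSpace X) (_ : ChartedSpace E X) (_ : IsManifold 𝓘(ℂ, E) ω X)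
    (qq : SL(2, ℝ) → E → X), IsQ X qq

/-! ### Definitions for the final statement -/

section Final

variable {E' : Type} [NormedAddCommGroup E'] [NormedSpace ℂ E']
variable {X : Type} [TopologicalSpace X] [ChartedSpace E' X]

/-- The class of the closed real `(1,1)`-form `θ` is nef with respect to the Kähler form `κ`: for
every `ε > 0` there is a smooth function `u` on `X` with `θ + dd^c u ≥ -ε κ`, that is, the Laplacian
of the potentials of `θ + dd^c u` along every holomorphic disc is at least `-ε` times the one of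
the potentials of `κ`. -/
def IsNef (θ κ : ClosedForm E' X) : Prop :=
  ∀ ε : ℝ, 0 < ε → ∃ u : X → ℝ, ContMDiff 𝓘(ℝ, E') 𝓘(ℝ, ℝ) ∞ u ∧
    ∀ (j : θ.J) (k : κ.J) (r : ℝ) (f : ℂ → X), 0 < r → IsHolDisc E' (θ.V j ∩ κ.V k) r f →
      -(ε * laplaceAtZero (fun ζ => κ.pot k (f ζ))) ≤
        laplaceAtZero (fun ζ => θ.pot j (f ζ) + u (f ζ))

/-- The class of `θ` has a smooth semipositive representative `θ + dd^c u ≥ 0`. -/
def HasSemipositive (θ : ClosedForm E' X) : Prop :=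
  ∃ u : X → ℝ, ContMDiff 𝓘(ℝ, E') 𝓘(ℝ, ℝ) ∞ u ∧
    ∀ (j : θ.J) (r : ℝ) (f : ℂ → X), 0 < r → IsHolDisc E' (θ.V j) r f →
      0 ≤ laplaceAtZero (fun ζ => θ.pot j (f ζ) + u (f ζ))

end Final

/-- FIN: the final statement. -/
def S_FIN : Prop := ∃ (X : Type) (_ : TopologicalSpace X) (_ : T2Space X) (_ : CompactSpace X)
    (_ : ConnectedSpace X) (_ : ChartedSpace E X) (_ : IsManifold 𝓘(ℂ, E) ω X)
    (κ θ : ClosedForm E X), κ.IsKahler ∧ IsNef θ κ ∧ θ.IsBig κ ∧ ¬ HasSemipositive θ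

end Pool.Agent.Run7.h532.KS
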