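import Pool.Agent.Run7.h532.KS.Wrap2

/-!
# The sub-mean value property of the potential of the Kähler current
-/

set_option autoImplicit false

open scoped Manifold ContDiff Topology ComplexConjugate MatrixGroups UpperHalfPlane Matrix
open Set Filter Metric

namespace Pool.Agent.Run7.h532.KS

open Pool.Agent.PNB (laplaceAtZero jensen_one)
open Pool.Agent.H816_Nef (laplaceAtZero_eq J1_lap_scale submean_C2)

theorem lap_nonneg (hL : S_LEVI) (hP : S_POS1) {a k : ℝ} (ha : 0 < a) (hk : 2 ≤ k)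
    (hak : 1 ≤ a * (k - 2)) {r : ℝ} {c : ℂ → E} (hc : DifferentiableOn ℂ c (ball 0 r))
    (hU : ∀ ζ ∈ ball (0 : ℂ) r, c ζ ∈ UU) {ζ₀ : ℂ} (hζ₀ : ζ₀ ∈ ball (0 : ℂ) r) :
    0 ≤ Laplacian.laplacian (fun ζ => Psi a k (c ζ)) ζ₀ := by
  have hr' : 0 < r - ‖ζ₀‖ := by
    rw [mem_ball_zero_iff] at hζ₀
    linarith
  have hsub : ∀ η ∈ ball (0 : ℂ) (r - ‖ζ₀‖), ζ₀ + η ∈ ball (0 : ℂ) r := by
    intro η hη
    rw [mem_ball_zero_iff] at hη ⊢
    linarith [norm_add_le ζ₀ η]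
  have h3 : DifferentiableOn ℂ (fun η => c (ζ₀ + η)) (ball 0 (r - ‖ζ₀‖)) :=
    hc.comp ((differentiableOn_const _).add differentiableOn_id) hsub
  have h6 := lap_levF hL (a := a) (k := k) ha hr' h3 (fun η hη => hU _ (hsub η hη))
  have h7 : 0 ≤ laplaceAtZero (fun η => Psi a k (c (ζ₀ + η))) := by
    rw [h6]
    exact hP a k _ _ ha hk hak (hU _ (hsub 0 (mem_ball_self hr')))
  have h8 : ContDiffAt ℝ 2 (fun η => Psi a k (c (ζ₀ + η))) 0 := by
    have h9 : ContDiffAt ℝ 2 (fun ζ => Psi a k (c ζ)) (ζ₀ + 0) := by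
      rw [add_zero]
      exact c2_disc hc hζ₀ (hU _ hζ₀) (contDiffOn_Psi ha k)
    exact ContDiffAt.comp (g := fun ζ => Psi a k (c ζ)) (f := fun η : ℂ => ζ₀ + η) 0 h9
      (contDiffAt_const.add contDiffAt_id)
  rw [laplaceAtZero_eq h8] at h7
  have h10 := J1_lap_scale (fun ζ => Psi a k (c ζ)) ζ₀ 1 one_ne_zero 0
  simp only [one_smul, add_zero, one_pow, one_mul] at h10
  rw [← h10]
  exact h7

theorem t_JEN (hL : S_LEVI) (hP : S_POS1) : S_JEN := by
  intro R z w g hR hz hw him hg hle h0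
  have h0R : (0 : ℂ) ∈ ball (0 : ℂ) R := mem_ball_self (by linarith)
  set h : ℂ → ℂ := fun ζ => w ζ - z ζ with hh
  have hd : DifferentiableOn ℂ h (ball 0 R) := hw.sub hz
  obtain ⟨j1, j2, j3⟩ := jensen_one hR hd (sub_ne_zero.2 h0)
  set F : ℂ → ℝ := fun ζ => Psi 1 3 (z ζ, w ζ) with hF
  have hc : DifferentiableOn ℂ (fun ζ => ((z ζ, w ζ) : E)) (ball 0 R) := hz.prodMk hw
  have hcU : ∀ ζ ∈ ball (0 : ℂ) R, ((z ζ, w ζ) : E) ∈ UU := him
  have hF2 : ∀ ζ ∈ ball (0 : ℂ) R, ContDiffAt ℝ 2 F ζ := fun ζ hζ =>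
    c2_disc hc hζ (hcU ζ hζ) (contDiffOn_Psi one_pos 3)
  have k1 : F 0 ≤ Real.circleAverage F 0 1 :=
    submean_C2 (z := 0) (R' := R) (fun ζ hζ => (hF2 ζ hζ).contDiffWithinAt) one_pos hR
      fun ζ hζ => lap_nonneg hL hP one_pos (by norm_num) (by norm_num) hc hcU hζ
  have hsph : sphere (0 : ℂ) |(1 : ℝ)| ⊆ ball (0 : ℂ) R := by
    intro ζ hζ
    rw [mem_ball_zero_iff]
    have : ‖ζ‖ = 1 := by simpa using hζ
    linarith
  have hFi : CircleIntegrable F 0 1 := by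
    apply ContinuousOn.circleIntegrable'
    intro ζ hζ
    exact (hF2 ζ (hsph hζ)).continuousAt.continuousWithinAt
  have hFi' : CircleIntegrable (fun ζ => 1 / 4 * F ζ) 0 1 := hFi.const_mul _
  set T : ℂ → ℝ := fun ζ => Real.log ‖h ζ‖ + 1 / 4 * F ζ with hT
  have hTi : CircleIntegrable T 0 1 := j2.add hFi'
  have e1 : Real.circleAverage T 0 1 =
      Real.circleAverage (fun ζ => Real.log ‖h ζ‖) 0 1 + 1 / 4 * Real.circleAverage F 0 1 := by
    have e2 := Real.circleAverage_fun_smul (a := (1 / 4 : ℝ)) (f := F) (c := 0) (R := 1)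
    simp only [smul_eq_mul] at e2
    rw [← e2]
    exact Real.circleAverage_fun_add j2 hFi'
  have hlog : ∀ ζ, 1 / 2 * Real.log (PP (z ζ, w ζ)) = Real.log ‖h ζ‖ := by
    intro ζ
    show 1 / 2 * Real.log (Complex.normSq (w ζ - z ζ)) = Real.log ‖w ζ - z ζ‖
    rw [Complex.normSq_eq_norm_sq, Real.log_pow]
    push_cast
    ring
  set q : ℂ → ℝ := fun ζ => if h ζ ≠ 0 then T ζ else g ζ with hq
  have hqe : T =ᶠ[codiscreteWithin (sphere (0 : ℂ) |(1 : ℝ)|)] q := by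
    filter_upwards [j3] with ζ hζ
    have hζ' : h ζ ≠ 0 := hζ
    simp only [hq, if_pos hζ']
  have hqi : CircleIntegrable q 0 1 := hTi.congr_codiscreteWithin hqe
  have hgi : CircleIntegrable g 0 1 := hg.continuousOn.circleIntegrable'
  have e3 : Real.circleAverage T 0 1 = Real.circleAverage q 0 1 :=
    Real.circleAverage_congr_codiscreteWithin hqe one_ne_zero
  have e4 : Real.circleAverage q 0 1 ≤ Real.circleAverage g 0 1 := by
    refine Real.circleAverage_mono hqi hgi fun ζ hζ => ?_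
    have hζ' : ‖ζ‖ = 1 := by simpa using hζ
    by_cases hz0 : h ζ ≠ 0
    · simp only [hq, if_pos hz0]
      have := hle ζ hζ' (sub_ne_zero.1 hz0)
      rw [hlog] at this
      exact this
    · simp only [hq, if_neg hz0, le_refl]
  rw [hlog]
  show Real.log ‖h 0‖ + 1 / 4 * F 0 ≤ _
  linarith

end Pool.Agent.Run7.h532.KS
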