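import Pool.Agent.Run7.h532.KS.Not1

/-!
# There is no semipositive representative
-/

set_option autoImplicit false

open scoped Manifold ContDiff Topology ComplexConjugate MatrixGroups UpperHalfPlane Matrix
open Set Filter Metric MeasureTheory

namespace Pool.Agent.Run7.h532.KS

open Pool.Agent.PNB (laplaceAtZero)
open Pool.Agent.W711.KC (jj nn CG jj_ne det_eq im_mob CG_far)
open Pool.Agent.TH598.KG (Cutoff d1)
open Pool.Agent.TH997.KG (VV isOpen_VV exists_cutoff hasDerivAt_mob mob)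
open Pool.Agent.H816_Nef (levi laplacian_comp_hol laplaceAtZero_eq J5_diff J5_sym)

theorem lap_line {u : E → ℝ} {p : E} (hu : ContDiffAt ℝ 2 u p) (v : E) :
    laplaceAtZero (fun ζ => u (p + ζ • v)) = levi u p v := by
  have h1 : ContDiffAt ℝ 2 (fun ζ : ℂ => p + ζ • v) 0 := by
    have : ContDiffAt ℂ 2 (fun ζ : ℂ => p + ζ • v) 0 := by fun_prop
    exact this.restrict_scalars ℝ
  have h2 : ContDiffAt ℝ 2 u (p + (0 : ℂ) • v) := by simpa using hu
  have h3 : ContDiffAt ℝ 2 (fun ζ : ℂ => u (p + ζ • v)) 0 :=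
    ContDiffAt.comp (g := u) (f := fun ζ : ℂ => p + ζ • v) 0 h2 h1
  have hf : AnalyticAt ℂ (fun ζ : ℂ => p + ζ • v) 0 := by fun_prop
  rw [laplaceAtZero_eq h3, laplacian_comp_hol (φ := u) hf h2]
  have h4 : deriv (fun ζ : ℂ => p + ζ • v) 0 = v := by
    have : HasDerivAt (fun t : ℂ => p + t • v) ((1 : ℂ) • v) 0 :=
      ((hasDerivAt_id (0 : ℂ)).smul_const v).const_add p
    rw [this.deriv, one_smul]
  rw [h4, zero_smul, add_zero]

/-- the diagonal -/
def dg (z : ℂ) : E := (z, z)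

theorem dg_mem {z : ℂ} (hz : z ∈ VV) : dg z ∈ UU := hz

/-- the invariant `(0, 1)`-forms -/
noncomputable def bet (u : E → ℝ) (a : E) (z : ℂ) : ℂ :=
  (1 / 2) * ((fderiv ℝ u (dg z) a : ℂ) + Complex.I * (fderiv ℝ u (dg z) (Complex.I • a) : ℂ))

section

variable {u : E → ℝ} (hu : ContDiffOn ℝ ∞ u UU)

include hu

theorem cd2 {p : E} (hp : p ∈ UU) : ContDiffAt ℝ 2 u p :=
  (hu.contDiffAt (isOpen_UU.mem_nhds hp)).of_le (WithTop.coe_le_coe.2 le_top)

theorem cd_fd : ContDiffOn ℝ 1 (fun z => fderiv ℝ u (dg z)) VV := by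
  have h1 : ContDiffOn ℝ 1 (fderiv ℝ u) UU :=
    hu.fderiv_of_isOpen isOpen_UU (m := 1) (by
      have : (1 + 1 : WithTop ℕ∞) = 2 := by norm_num
      rw [this]
      exact WithTop.coe_le_coe.2 le_top)
  have h2 : ContDiff ℝ 1 dg := by
    unfold dg
    exact contDiff_id.prodMk contDiff_id
  exact h1.comp h2.contDiffOn fun z hz => dg_mem hz

theorem cd_bet (a : E) : ContDiffOn ℝ 1 (bet u a) VV := by
  have h1 := cd_fd hu
  have h2 : ∀ v : E, ContDiffOn ℝ 1 (fun z => ((fderiv ℝ u (dg z) v : ℝ) : ℂ)) VV := fun v =>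
    Complex.ofRealCLM.contDiff.comp_contDiffOn (h1.clm_apply contDiffOn_const)
  unfold bet
  exact contDiffOn_const.mul ((h2 a).add (contDiffOn_const.mul (h2 _)))

theorem re_d1_bet (a : E) {z : ℂ} (hz : z ∈ VV) :
    (d1 (bet u a) z).re = (1 / 4) * (fderiv ℝ (fderiv ℝ u) (dg z) (1, 1) a +
      fderiv ℝ (fderiv ℝ u) (dg z) (Complex.I • ((1, 1) : E)) (Complex.I • a)) := by
  have h1 : HasFDerivAt (fderiv ℝ u) (fderiv ℝ (fderiv ℝ u) (dg z)) (dg z) :=
    (J5_diff (cd2 hu (dg_mem hz))).hasFDerivAt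
  have h2 : HasFDerivAt dg ((ContinuousLinearMap.id ℝ ℂ).prod (ContinuousLinearMap.id ℝ ℂ)) z :=
    (hasFDerivAt_id z).prodMk (hasFDerivAt_id z)
  have h3 := h1.comp z h2
  have h4 : ∀ v : E, HasFDerivAt (fun w => ((fderiv ℝ u (dg w) v : ℝ) : ℂ))
      (Complex.ofRealCLM.comp (((fderiv ℝ (fderiv ℝ u) (dg z)).comp
        ((ContinuousLinearMap.id ℝ ℂ).prod (ContinuousLinearMap.id ℝ ℂ))).flip v)) z := by
    intro v
    have h5 := h3.clm_apply (hasFDerivAt_const v z)
    have h6 := Complex.ofRealCLM.hasFDerivAt.comp z h5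
    refine h6.congr_fderiv ?_
    ext w
    simp
  have h7 := (((h4 a).add ((h4 (Complex.I • a)).const_mul Complex.I)).const_mul (1 / 2 : ℂ))
  have h8 : fderiv ℝ (bet u a) z = _ := h7.fderiv
  unfold d1
  rw [h8]
  have e1 : ((1, 1) : E) = ((1 : ℂ), (1 : ℂ)) := rfl
  have e2 : Complex.I • ((1, 1) : E) = ((Complex.I, Complex.I) : E) := by simp
  rw [e2]
  simp
  ring

theorem fd_inv (hinv : ∀ γ ∈ CG, ∀ p ∈ UU, jj γ p.2 ≠ 0 → u (FF γ p) = u p) {g : SL(2, ℝ)}
    (hg : g ∈ CG) {z : ℂ} (hz : z ∈ VV) (v : E) :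
    fderiv ℝ u (dg z) v = fderiv ℝ u (dg (nn g z / jj g z)) ((1 / jj g z ^ 2) • v) := by
  have hp := dg_mem hz
  have hm := hasDerivAt_mob g hz
  have h1 : HasFDerivAt (FF g)
      ((((ContinuousLinearMap.toSpanSingleton ℂ (1 / jj g z ^ 2 : ℂ)).comp
        (ContinuousLinearMap.fst ℂ ℂ ℂ)).prod
        ((ContinuousLinearMap.toSpanSingleton ℂ (1 / jj g z ^ 2 : ℂ)).comp
        (ContinuousLinearMap.snd ℂ ℂ ℂ))).restrictScalars ℝ) (dg z) := by
    have h2 : HasFDerivAt (𝕜 := ℂ) (fun p : E => mob g p.1)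
        ((ContinuousLinearMap.toSpanSingleton ℂ (1 / jj g z ^ 2 : ℂ)).comp
        (ContinuousLinearMap.fst ℂ ℂ ℂ)) (dg z) :=
      HasFDerivAt.comp (g := mob g) (f := fun p : E => p.1) (dg z) hm.hasFDerivAt hasFDerivAt_fst
    have h3 : HasFDerivAt (𝕜 := ℂ) (fun p : E => mob g p.2)
        ((ContinuousLinearMap.toSpanSingleton ℂ (1 / jj g z ^ 2 : ℂ)).comp
        (ContinuousLinearMap.snd ℂ ℂ ℂ)) (dg z) :=
      HasFDerivAt.comp (g := mob g) (f := fun p : E => p.2) (dg z) hm.hasFDerivAt hasFDerivAt_snd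
    exact (h2.prodMk h3).restrictScalars ℝ
  have hFp : FF g (dg z) = dg (nn g z / jj g z) := rfl
  have hFU : FF g (dg z) ∈ UU := FF_mem hp
  have h4 : HasFDerivAt u (fderiv ℝ u (FF g (dg z))) (FF g (dg z)) :=
    ((cd2 hu hFU).differentiableAt (by norm_num)).hasFDerivAt
  have h5 := h4.comp (dg z) h1
  have h6 : u =ᶠ[𝓝 (dg z)] (u ∘ FF g) := by
    have hj : ∀ᶠ p in 𝓝 (dg z), jj g (p : E).2 ≠ 0 :=
      (continuous_jj2 g).continuousAt.eventually_ne (jj_ne g hz)
    filter_upwards [hj, isOpen_UU.mem_nhds hp] with p h7 h8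
    exact (hinv g hg p h8 h7).symm
  rw [h6.fderiv_eq, h5.fderiv, hFp]
  simp only [ContinuousLinearMap.comp_apply]
  congr 1
  refine Prod.ext ?_ ?_
  · simp [mul_comm]
  · simp [mul_comm]

theorem bet_inv (hinv : ∀ γ ∈ CG, ∀ p ∈ UU, jj γ p.2 ≠ 0 → u (FF γ p) = u p) (a : E)
    (g : SL(2, ℝ)) (hg : g ∈ CG) (z : ℂ) (hz : 0 < z.im) :
    bet u a (nn g z / jj g z) = conj (jj g z) ^ 2 * bet u a z := by
  have hj : jj g z ^ 2 ≠ 0 := pow_ne_zero 2 (jj_ne g hz)
  have h1 : ∀ v : E, fderiv ℝ u (dg (nn g z / jj g z)) v = fderiv ℝ u (dg z) (jj g z ^ 2 • v) := by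
    intro v
    rw [fd_inv hu hinv hg hz, smul_smul, one_div, inv_mul_cancel₀ hj, one_smul]
  set w : ℂ := jj g z ^ 2 with hw
  have e1 : w • a = w.re • a + w.im • (Complex.I • a) := by
    conv_lhs => rw [← Complex.re_add_im w]
    rw [add_smul, mul_smul]
    rfl
  have e2 : w • (Complex.I • a) = w.re • (Complex.I • a) - w.im • a := by
    have : w • (Complex.I • a) = ((w.re : ℂ) * Complex.I - (w.im : ℂ)) • a := by
      rw [smul_smul]
      congr 1
      apply Complex.ext <;> simp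
    rw [this, sub_smul, mul_smul]
    rfl
  have e3 : conj (jj g z) ^ 2 = (w.re : ℂ) - Complex.I * (w.im : ℂ) := by
    rw [← map_pow, ← hw]
    apply Complex.ext <;> simp
  unfold bet
  rw [h1, h1, e1, e2, e3]
  simp only [map_add, map_sub, map_smul, smul_eq_mul]
  push_cast
  linear_combination (1 / 2 * (w.im : ℂ) * (fderiv ℝ u (dg z) (Complex.I • a) : ℂ)) *
    Complex.I_mul_I

omit hu in
theorem levF_diag {z : ℂ} (hz : z ∈ VV) (v : E) : levF 1 2 (dg z) v =
    (Complex.normSq v.2 + 3 * Complex.normSq v.1 - 4 * (v.2 * conj v.1).re) / z.im ^ 2 := by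
  have hy : z.im ≠ 0 := ne_of_gt hz
  have h1 : QQ (dg z) = 4 * z.im ^ 2 := by
    unfold QQ dg
    rw [Complex.normSq_apply]
    simp
    ring
  have h2 : PP (dg z) = 0 := by
    unfold PP dg
    simp
  have h3 : ((conj z - z) ^ 2 * v.2 * conj v.1).re = -(4 * z.im ^ 2 * (v.2 * conj v.1).re) := by
    have h4 : conj z - z = -(2 * z.im : ℝ) * Complex.I := by
      apply Complex.ext
      · simp
      · simp
        ring
    have h5 : (conj z - z) ^ 2 = ((-(4 * z.im ^ 2) : ℝ) : ℂ) := by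
      rw [h4, mul_pow, Complex.I_sq]
      push_cast
      ring
    rw [h5, mul_assoc, Complex.re_ofReal_mul]
    ring
  unfold levF
  rw [h1, h2]
  have h6 : ((conj (dg z).2 - (dg z).1) ^ 2 * v.2 * conj v.1).re =
    -(4 * z.im ^ 2 * (v.2 * conj v.1).re) := h3
  rw [h6]
  have h7 : (dg z).1.im = z.im := rfl
  have h8 : (dg z).2.im = z.im := rfl
  rw [h7, h8]
  field_simp
  ring

end

theorem t_NOT : S_NOT := by
  intro u hu hinv hpos
  obtain ⟨φ, hφ⟩ := exists_cutoff
  -- the Levi form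
  have hL : ∀ z ∈ VV, ∀ v : E, 0 ≤ levF 1 2 (dg z) v + levi u (dg z) v := by
    intro z hz v
    have h := hpos (dg z) (dg_mem hz) v
    rwa [lap_line (cd2 hu (dg_mem hz))] at h
  -- step 1
  have h11 : ∀ z ∈ VV, 0 ≤ levi u (dg z) (1, 1) := by
    intro z hz
    have h := hL z hz (1, 1)
    rw [levF_diag hz] at h
    have e : (Complex.normSq ((1, 1) : E).2 + 3 * Complex.normSq ((1, 1) : E).1 -
        4 * (((1, 1) : E).2 * conj ((1, 1) : E).1).re) / z.im ^ 2 = 0 := by
      simp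
      left
      norm_num
    rw [e] at h
    linarith
  have hre1 : ∀ z ∈ VV, (d1 (bet u (1, 1)) z).re = (1 / 4) * levi u (dg z) (1, 1) := fun z hz =>
    re_d1_bet hu (1, 1) hz
  have s1 := stokes_pos hφ (cd_bet hu (1, 1)) (bet_inv hu hinv (1, 1)) (by
    intro z hz
    rw [hre1 z hz]
    have := h11 z hz
    have := hφ.nonneg z
    positivity)
  -- step 2
  have s2 : ∀ z ∈ VV, φ z ≠ 0 → (d1 (bet u (0, 1)) z).re = 1 / (4 * z.im ^ 2) := by
    intro z hz hne
    have hy : 0 < z.im := hz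
    have h0 : levi u (dg z) (1, 1) = 0 := by
      have h := s1 z hz
      rw [hre1 z hz] at h
      have h' := (mul_eq_zero.1 h).resolve_left hne
      linarith
    rw [re_d1_bet hu (0, 1) hz]
    set D := fderiv ℝ (fderiv ℝ u) (dg z) with hD
    set B : ℝ := D (1, 1) (0, 1) + D (Complex.I • ((1, 1) : E)) (Complex.I • ((0, 1) : E)) with hB
    have hsym : ∀ v w : E, D v w = D w v := fun v w => J5_sym (cd2 hu (dg_mem hz)) v w
    have hquad : ∀ t : ℝ, levi u (dg z) ((1, 1) + t • ((0, 1) : E)) =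
        2 * t * B + t ^ 2 * levi u (dg z) (0, 1) := by
      intro t
      have e0 : levi u (dg z) (1, 1) = D (1, 1) (1, 1) +
        D (Complex.I • ((1, 1) : E)) (Complex.I • ((1, 1) : E)) := rfl
      rw [e0] at h0
      have e1 : levi u (dg z) ((1, 1) + t • ((0, 1) : E)) =
        D ((1, 1) + t • ((0, 1) : E)) ((1, 1) + t • ((0, 1) : E)) +
        D (Complex.I • (((1, 1) : E) + t • ((0, 1) : E)))
          (Complex.I • (((1, 1) : E) + t • ((0, 1) : E))) := rfl
      have e2 : levi u (dg z) (0, 1) = D (0, 1) (0, 1) +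
        D (Complex.I • ((0, 1) : E)) (Complex.I • ((0, 1) : E)) := rfl
      have e3 : Complex.I • (((1, 1) : E) + t • ((0, 1) : E)) =
        Complex.I • ((1, 1) : E) + t • (Complex.I • ((0, 1) : E)) := by
        rw [smul_add, smul_comm]
      rw [e1, e2, e3, hB]
      simp only [map_add, map_smul, _root_.add_apply, _root_.smul_apply, smul_eq_mul]
      rw [hsym (0, 1) (1, 1), hsym (Complex.I • ((0, 1) : E)) (Complex.I • ((1, 1) : E))]
      linear_combination h0
    have hineq : ∀ t : ℝ, 0 ≤ 2 * t * (B - 1 / z.im ^ 2) +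
        t ^ 2 * (1 / z.im ^ 2 + levi u (dg z) (0, 1)) := by
      intro t
      have h := hL z hz ((1, 1) + t • ((0, 1) : E))
      rw [hquad, levF_diag hz] at h
      have e4 : (((1, 1) : E) + t • ((0, 1) : E)).2 = ((1 + t : ℝ) : ℂ) := by
        simp
      have e5 : (((1, 1) : E) + t • ((0, 1) : E)).1 = 1 := by simp
      rw [e4, e5, Complex.normSq_ofReal, map_one, map_one, mul_one, mul_one, Complex.ofReal_re] at h
      have e6 : ((1 + t) * (1 + t) + 3 - 4 * (1 + t)) / z.im ^ 2 =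
          (t ^ 2 - 2 * t) * (1 / z.im ^ 2) := by
        field_simp
        ring
      rw [e6] at h
      linarith
    -- a quadratic polynomial without constant term
    have hB0 : B - 1 / z.im ^ 2 = 0 := by
      set b := B - 1 / z.im ^ 2
      set c := 1 / z.im ^ 2 + levi u (dg z) (0, 1)
      by_contra hb
      have hc : 0 ≤ |c| := abs_nonneg c
      have h1 := hineq (-b / (|c| + 1))
      have h2 : 2 * (-b / (|c| + 1)) * b + (-b / (|c| + 1)) ^ 2 * c =
          -(b ^ 2 / (|c| + 1)) * (2 - c / (|c| + 1)) := by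
        field_simp
        ring
      rw [h2] at h1
      have h3 : c / (|c| + 1) < 1 := by
        rw [div_lt_one (by positivity)]
        linarith [le_abs_self c]
      have h4 : 0 < b ^ 2 / (|c| + 1) := by positivity
      nlinarith
    rw [show B = 1 / z.im ^ 2 by linarith]
    field_simp
  -- step 3
  have s3 := stokes_pos hφ (cd_bet hu (0, 1)) (bet_inv hu hinv (0, 1)) (by
    intro z hz
    by_cases hne : φ z = 0
    · rw [hne, zero_mul]
    · rw [s2 z hz hne]
      have := hφ.nonneg z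
      positivity)
  obtain ⟨z, hz, hne⟩ := exists_phi_ne hφ
  have h := s3 z hz
  rw [s2 z hz hne] at h
  have hy : 0 < z.im := hz
  have : (1 : ℝ) / (4 * z.im ^ 2) ≠ 0 := by positivity
  exact (mul_ne_zero hne this) h

end Pool.Agent.Run7.h532.KS
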