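import Pool.Agent.Run7.h532.KS.Pos
import Pool.Agent.Run7.h532.KS.Jen
import Pool.Agent.Run7.h532.KS.Not2
import Pool.Agent.Run7.h390.KS.Levi

/-!
# Final assembly
-/

set_option autoImplicit false

open scoped Manifold ContDiff

namespace Pool.Agent.Run7.h532.KS

open Pool.Agent.PNB (ClosedForm)
open Pool.Agent.Run7.h390.KS (t_LEVI)

theorem main : ∃ (X : Type) (_ : TopologicalSpace X) (_ : T2Space X) (_ : CompactSpace X)
    (_ : ConnectedSpace X) (_ : ChartedSpace (ℂ × ℂ) X) (_ : IsManifold 𝓘(ℂ, ℂ × ℂ) ω X)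
    (κ θ : ClosedForm (ℂ × ℂ) X),
    κ.IsKahler ∧ IsNef θ κ ∧ θ.IsBig κ ∧ ¬ HasSemipositive θ :=
  t_FIN t_PLU t_LEVI t_POS2 t_POS3 (t_JEN t_LEVI t_POS1) t_NOT

end Pool.Agent.Run7.h532.KS
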