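import Pool.Agent.Run7.h532.KS.Base

/-!
# The quotient of `ℍ × (ℂ² ∖ 0)` by `Γ × ℂˣ`

Adapted from `Pool.Agent.TH598.KG.Quo` and `Pool.Agent.TH598.KG.Quo2`.
-/

set_option autoImplicit false

open scoped Manifold ContDiff Topology ComplexConjugate MatrixGroups UpperHalfPlane Matrix
open Set Filter

namespace Pool.Agent.Run7.h532.KS

open Pool.Agent.W711.KC (jj nn CG jj_ne jj_mul nn_mul im_mob CG_far NN_pos det_eq)
open UpperHalfPlane (ofComplex)

/-- `ℍ × (ℂ² ∖ 0)`. -/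
abbrev YY : Type := {y : ℍ × E // y.2 ≠ 0}

/-- The action on `ℂ²`. -/
noncomputable def mx (g : SL(2, ℝ)) (x : E) : E :=
  ((g 0 0 : ℂ) * x.1 + (g 0 1 : ℂ) * x.2, (g 1 0 : ℂ) * x.1 + (g 1 1 : ℂ) * x.2)

theorem mx_one (x : E) : mx 1 x = x := by
  unfold mx
  simp

theorem mx_mul (g h : SL(2, ℝ)) (x : E) : mx (g * h) x = mx g (mx h x) := by
  unfold mx
  rw [Matrix.SpecialLinearGroup.coe_mul]
  simp only [Matrix.mul_apply, Fin.sum_univ_two]
  push_cast
  refine Prod.ext ?_ ?_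
  · simp only
    ring
  · simp only
    ring

theorem mx_smul (g : SL(2, ℝ)) (c : ℂ) (x : E) : mx g (c • x) = c • mx g x := by
  unfold mx
  refine Prod.ext ?_ ?_
  · simp only [Prod.smul_fst, Prod.smul_snd, smul_eq_mul]
    ring
  · simp only [Prod.smul_fst, Prod.smul_snd, smul_eq_mul]
    ring

theorem mx_inv_mx (g : SL(2, ℝ)) (x : E) : mx g⁻¹ (mx g x) = x := by
  rw [← mx_mul, inv_mul_cancel, mx_one]

theorem mx_mx_inv (g : SL(2, ℝ)) (x : E) : mx g (mx g⁻¹ x) = x := by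
  rw [← mx_mul, mul_inv_cancel, mx_one]

theorem mx_ne (g : SL(2, ℝ)) {x : E} (hx : x ≠ 0) : mx g x ≠ 0 := by
  intro h
  apply hx
  rw [← mx_inv_mx g x, h]
  unfold mx
  simp

theorem mx_pair (g : SL(2, ℝ)) (w : ℂ) : mx g (w, 1) = (nn g w, jj g w) := by
  unfold mx nn jj
  simp

theorem continuous_mx (g : SL(2, ℝ)) : Continuous (mx g) := by
  unfold mx
  fun_prop

/-- The group `Γ × ℂˣ`. -/
abbrev GZ : Type := CG × ℂˣ

theorem coe_smul_H (g : SL(2, ℝ)) (z : ℍ) : ((g • z : ℍ) : ℂ) = nn g z / jj g z := by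
  rw [UpperHalfPlane.coe_specialLinearGroup_apply]
  rfl

noncomputable instance : MulAction GZ YY where
  smul γ y := ⟨(γ.1.1 • y.1.1, (γ.2 : ℂ) • mx γ.1.1 y.1.2),
    smul_ne_zero γ.2.ne_zero (mx_ne _ y.2)⟩
  one_smul y := by
    apply Subtype.ext
    refine Prod.ext ?_ ?_
    · exact one_smul _ _
    · show ((1 : ℂˣ) : ℂ) • mx (1 : SL(2, ℝ)) y.1.2 = y.1.2
      rw [mx_one, Units.val_one, one_smul]
  mul_smul γ γ' y := by
    apply Subtype.ext
    refine Prod.ext ?_ ?_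
    · exact mul_smul _ _ _
    · show (((γ.2 * γ'.2 : ℂˣ)) : ℂ) • mx (γ.1.1 * γ'.1.1) y.1.2 =
        (γ.2 : ℂ) • mx γ.1.1 ((γ'.2 : ℂ) • mx γ'.1.1 y.1.2)
      rw [mx_smul, mx_mul, Units.val_mul, mul_smul]

theorem smul_val (γ : GZ) (y : YY) : (γ • y).1 =
    (γ.1.1 • y.1.1, (γ.2 : ℂ) • mx γ.1.1 y.1.2) := rfl

instance : ContinuousConstSMul GZ YY where
  continuous_const_smul γ := by
    rw [continuous_induced_rng]
    refine Continuous.prodMk ?_ ?_
    · exact (continuous_fst.comp continuous_subtype_val).const_smul γ.1.1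
    · refine Continuous.const_smul ?_ (γ.2 : ℂ)
      exact (continuous_mx _).comp (continuous_snd.comp continuous_subtype_val)

/-- The quotient. -/
abbrev MX : Type := MulAction.orbitRel.Quotient GZ YY

/-- The projection. -/
noncomputable def pj (y : YY) : MX := Quotient.mk _ y

theorem pj_surj : Function.Surjective pj := Quotient.mk_surjective

theorem pj_eq_iff {a b : YY} : pj a = pj b ↔ ∃ g ∈ CG, ∃ c : ℂ, c ≠ 0 ∧ b.1.1 = g • a.1.1 ∧
    b.1.2 = c • mx g a.1.2 := by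
  unfold pj
  rw [eq_comm, Quotient.eq'', MulAction.orbitRel_apply, MulAction.mem_orbit_iff]
  constructor
  · rintro ⟨γ, h⟩
    have h' := congrArg Subtype.val h
    rw [smul_val] at h'
    exact ⟨γ.1.1, γ.1.2, γ.2, γ.2.ne_zero, (congrArg Prod.fst h').symm, (congrArg Prod.snd h').symm⟩
  · rintro ⟨g, hg, c, hc, h1, h2⟩
    refine ⟨(⟨g, hg⟩, Units.mk0 c hc), ?_⟩
    apply Subtype.ext
    rw [smul_val]
    exact Prod.ext h1.symm h2.symm

theorem isOpenQuotientMap_pj : IsOpenQuotientMap pj := MulAction.isOpenQuotientMap_quotientMk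

theorem continuous_pj : Continuous pj := isOpenQuotientMap_pj.continuous

theorem parallel_iff {x x' : E} (hx : x ≠ 0) (hx' : x' ≠ 0) :
    (∃ c : ℂ, c ≠ 0 ∧ x' = c • x) ↔ x'.1 * x.2 = x'.2 * x.1 := by
  constructor
  · rintro ⟨c, -, rfl⟩
    simp only [Prod.smul_fst, Prod.smul_snd, smul_eq_mul]
    ring
  · intro h
    have key : ∃ c : ℂ, x' = c • x := by
      by_cases h1 : x.1 = 0
      · have h2 : x.2 ≠ 0 := by
          intro h2
          exact hx (Prod.ext h1 h2)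
        refine ⟨x'.2 / x.2, Prod.ext ?_ ?_⟩
        · rw [h1, mul_zero] at h
          rcases mul_eq_zero.1 h with h3 | h3
          · rw [h3, Prod.smul_fst, h1, smul_zero]
          · exact absurd h3 h2
        · rw [Prod.smul_snd, smul_eq_mul, div_mul_cancel₀ _ h2]
      · refine ⟨x'.1 / x.1, Prod.ext ?_ ?_⟩
        · rw [Prod.smul_fst, smul_eq_mul, div_mul_cancel₀ _ h1]
        · rw [Prod.smul_snd, smul_eq_mul, div_mul_eq_mul_div, h, mul_div_assoc, div_self h1, mul_one]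
    obtain ⟨c, hc⟩ := key
    refine ⟨c, ?_, hc⟩
    rintro rfl
    rw [zero_smul] at hc
    exact hx' hc

/-- the closed relation given by `g`. -/
def Rg (g : SL(2, ℝ)) : Set (YY × YY) :=
  {q | q.2.1.1 = g • q.1.1.1 ∧ q.2.1.2.1 * (mx g q.1.1.2).2 = q.2.1.2.2 * (mx g q.1.1.2).1}

theorem isClosed_Rg (g : SL(2, ℝ)) : IsClosed (Rg g) := by
  have c1 : Continuous fun q : YY × YY => q.1.1.1 :=
    continuous_fst.comp (continuous_subtype_val.comp continuous_fst)
  have c2 : Continuous fun q : YY × YY => q.1.1.2 :=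
    continuous_snd.comp (continuous_subtype_val.comp continuous_fst)
  have c3 : Continuous fun q : YY × YY => q.2.1.1 :=
    continuous_fst.comp (continuous_subtype_val.comp continuous_snd)
  have c4 : Continuous fun q : YY × YY => q.2.1.2 :=
    continuous_snd.comp (continuous_subtype_val.comp continuous_snd)
  have c5 : Continuous fun q : YY × YY => mx g q.1.1.2 := (continuous_mx g).comp c2
  exact (isClosed_eq c3 (c1.const_smul g)).inter
    (isClosed_eq ((continuous_fst.comp c4).mul (continuous_snd.comp c5))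
      ((continuous_snd.comp c4).mul (continuous_fst.comp c5)))

theorem pj_eq_iff' {a b : YY} : pj a = pj b ↔ ∃ g ∈ CG, (a, b) ∈ Rg g := by
  rw [pj_eq_iff]
  constructor
  · rintro ⟨g, hg, c, hc, h1, h2⟩
    exact ⟨g, hg, h1, (parallel_iff (mx_ne _ a.2) b.2).1 ⟨c, hc, h2⟩⟩
  · rintro ⟨g, hg, h1, h2⟩
    obtain ⟨c, hc, h3⟩ := (parallel_iff (mx_ne _ a.2) b.2).2 h2
    exact ⟨g, hg, c, hc, h1, h3⟩

instance : T2Space MX := by
  rw [t2Space_iff_of_isOpenQuotientMap isOpenQuotientMap_pj, ← isOpen_compl_iff, isOpen_iff_mem_nhds]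
  rintro ⟨a, b⟩ hab
  rw [mem_compl_iff, mem_ofPred_eq, pj_eq_iff'] at hab
  push Not at hab
  have c1 : Continuous fun q : YY × YY => q.1.1.1 :=
    continuous_fst.comp (continuous_subtype_val.comp continuous_fst)
  have c3 : Continuous fun q : YY × YY => q.2.1.1 :=
    continuous_fst.comp (continuous_subtype_val.comp continuous_snd)
  have hW : {q : YY × YY | dist q.1.1.1 a.1.1 < 1 / 4 ∧ dist q.2.1.1 b.1.1 < 1 / 4} ∈ 𝓝 (a, b) := by
    refine IsOpen.mem_nhds ?_ ⟨by simp, by simp⟩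
    exact (isOpen_lt (c1.dist continuous_const) continuous_const).inter
      (isOpen_lt (c3.dist continuous_const) continuous_const)
  by_cases hg : ∃ g ∈ CG, dist (g • a.1.1) b.1.1 < 1 / 2
  · obtain ⟨g, hg, hd⟩ := hg
    have h1 : (Rg g)ᶜ ∈ 𝓝 (a, b) := (isClosed_Rg g).isOpen_compl.mem_nhds (hab g hg)
    filter_upwards [hW, h1] with q hq hq1
    rw [mem_compl_iff, mem_ofPred_eq, pj_eq_iff']
    rintro ⟨g', hg', hq2⟩
    have h2 : g' = g := by
      refine CG_far.eq_of_dist_lt hg' hg (z := a.1.1) ?_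
      have h3 : dist (g' • a.1.1) (g' • q.1.1.1) < 1 / 4 := by
        rw [dist_smul, dist_comm]; exact hq.1
      have h4 : dist (g' • q.1.1.1) b.1.1 < 1 / 4 := by
        rw [← hq2.1]; exact hq.2
      have h5 := dist_triangle4 (g' • a.1.1) (g' • q.1.1.1) b.1.1 (g • a.1.1)
      rw [dist_comm b.1.1] at h5
      linarith
    rw [h2] at hq2
    exact hq1 hq2
  · push Not at hg
    filter_upwards [hW] with q hq
    rw [mem_compl_iff, mem_ofPred_eq, pj_eq_iff']
    rintro ⟨g', hg', hq2⟩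
    have h3 : dist (g' • a.1.1) (g' • q.1.1.1) < 1 / 4 := by
      rw [dist_smul, dist_comm]; exact hq.1
    have h4 : dist (g' • q.1.1.1) b.1.1 < 1 / 4 := by
      rw [← hq2.1]; exact hq.2
    have h5 := dist_triangle (g' • a.1.1) (g' • q.1.1.1) b.1.1
    have := hg g' hg'
    linarith

instance : CompactSpace MX := by
  obtain ⟨K, hK, hK'⟩ := Pool.Agent.H85R3.HS.cocompact NN_pos
  have hS : IsCompact (Metric.sphere (0 : E) 1) := isCompact_sphere _ _
  have hKS : IsCompact (K ×ˢ Metric.sphere (0 : E) 1) := hK.prod hS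
  have h1 : IsCompact (Subtype.val ⁻¹' (K ×ˢ Metric.sphere (0 : E) 1) : Set YY) := by
    have hi : Topology.IsInducing (Subtype.val : YY → ℍ × E) := Topology.IsInducing.subtypeVal
    rw [hi.isCompact_iff]
    have e : (Subtype.val : YY → ℍ × E) '' (Subtype.val ⁻¹' (K ×ˢ Metric.sphere (0 : E) 1)) =
        K ×ˢ Metric.sphere (0 : E) 1 := by
      ext y
      constructor
      · rintro ⟨y, hy, rfl⟩
        exact hy
      · intro hy
        refine ⟨⟨y, ?_⟩, hy, rfl⟩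
        intro h0
        have hx := hy.2
        rw [h0] at hx
        simp at hx
    rw [e]
    exact hKS
  refine ⟨?_⟩
  have h2 : (univ : Set MX) = pj '' (Subtype.val ⁻¹' (K ×ˢ Metric.sphere (0 : E) 1)) := by
    symm
    rw [eq_univ_iff_forall]
    intro q
    obtain ⟨y, rfl⟩ := pj_surj q
    obtain ⟨g, hg, hz⟩ := hK' y.1.1
    have hx : mx g y.1.2 ≠ 0 := mx_ne _ y.2
    have hn : ‖mx g y.1.2‖ ≠ 0 := norm_ne_zero_iff.2 hx
    set c : ℂ := ((‖mx g y.1.2‖⁻¹ : ℝ) : ℂ) with hc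
    have hc0 : c ≠ 0 := by
      rw [hc]
      exact_mod_cast inv_ne_zero hn
    refine ⟨⟨(g • y.1.1, c • mx g y.1.2), smul_ne_zero hc0 hx⟩, ⟨hz, ?_⟩, ?_⟩
    · rw [mem_sphere_zero_iff_norm, norm_smul, hc, Complex.norm_real, norm_inv, norm_norm,
        inv_mul_cancel₀ hn]
    · exact (pj_eq_iff.2 ⟨g, hg, c, hc0, rfl, rfl⟩).symm
  rw [h2]
  exact h1.image continuous_pj

instance : ConnectedSpace MX := by
  have h1 : IsConnected ({0}ᶜ : Set E) := by
    apply isConnected_compl_singleton_of_one_lt_rank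
    have : Module.finrank ℝ E = 4 := by
      rw [Module.finrank_prod]
      simp
    rw [← Module.finrank_eq_rank, this]
    norm_num
  have h2 : IsConnected ((univ : Set ℍ) ×ˢ ({0}ᶜ : Set E)) := isConnected_univ.prod h1
  have h3 : ConnectedSpace YY := by
    have h4 := isConnected_iff_connectedSpace.1 h2
    let f : ((univ : Set ℍ) ×ˢ ({0}ᶜ : Set E) : Set (ℍ × E)) → YY := fun y => ⟨y.1, y.2.2⟩
    have hf : Continuous f := Continuous.subtype_mk continuous_subtype_val _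
    exact Function.Surjective.connectedSpace (f := f)
      (fun y => ⟨⟨y.1, ⟨mem_univ _, y.2⟩⟩, rfl⟩) hf
  exact pj_surj.connectedSpace continuous_pj

/-! ### Charts -/

theorem isOpen_UU : IsOpen UU :=
  isOpen_lt continuous_const (Complex.continuous_im.comp continuous_fst)

theorem continuousAt_ofComplex {z : ℂ} (hz : 0 < z.im) : ContinuousAt (ofComplex : ℂ → ℍ) z :=
  (UpperHalfPlane.contMDiffAt_ofComplex (n := 0) hz).continuousAt

theorem ofC_im {z : ℂ} (hz : 0 < z.im) : ((ofComplex z : ℍ) : ℂ) = z := by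
  rw [UpperHalfPlane.ofComplex_apply_of_im_pos hz]

theorem pair_ne (w : ℂ) : ((w, 1) : E) ≠ 0 := by
  intro h
  exact one_ne_zero (congrArg Prod.snd h)

/-- The point `(g z, g w)`. -/
noncomputable def yI (g : SL(2, ℝ)) (p : E) : YY :=
  ⟨(g • ofComplex p.1, mx g (p.2, 1)), mx_ne g (pair_ne p.2)⟩

/-- The map `qq`. -/
noncomputable def qM (g : SL(2, ℝ)) (p : E) : MX := pj (yI g p)

theorem continuousOn_yI (g : SL(2, ℝ)) : ContinuousOn (yI g) UU := by
  intro p hp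
  apply ContinuousAt.continuousWithinAt
  refine Topology.IsInducing.subtypeVal.continuousAt_iff.2 ?_
  refine ContinuousAt.prodMk ?_ ?_
  · have h1 : ContinuousAt (fun p : E => (ofComplex p.1 : ℍ)) p :=
      ContinuousAt.comp (g := (ofComplex : ℂ → ℍ)) (f := fun p : E => p.1)
        (continuousAt_ofComplex hp) continuous_fst.continuousAt
    exact h1.const_smul g
  · exact ((continuous_mx g).comp (continuous_snd.prodMk continuous_const)).continuousAt

theorem continuousOn_qM (g : SL(2, ℝ)) : ContinuousOn (qM g) UU :=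
  continuous_pj.comp_continuousOn (continuousOn_yI g)

theorem nn_div_im (g : SL(2, ℝ)) {z : ℂ} (hz : 0 < z.im) : 0 < (nn g z / jj g z).im := by
  rw [im_mob g hz]
  exact div_pos hz (Complex.normSq_pos.2 (jj_ne g hz))

theorem FF_mem {g : SL(2, ℝ)} {p : E} (hp : p ∈ UU) : FF g p ∈ UU := nn_div_im g hp

theorem FF_one (p : E) : FF 1 p = p := by
  unfold FF nn jj
  simp

theorem qM_eq_iff {g g' : SL(2, ℝ)} {p p' : E} (hp : p ∈ UU) (hp' : p' ∈ UU) :
    qM g p = qM g' p' ↔ ∃ γ ∈ CG, jj (g'⁻¹ * γ * g) p.2 ≠ 0 ∧ p' = FF (g'⁻¹ * γ * g) p := by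
  unfold qM
  rw [pj_eq_iff]
  constructor
  · rintro ⟨γ, hγ, c, hc, h1, h2⟩
    change g' • ofComplex p'.1 = γ • g • ofComplex p.1 at h1
    change mx g' (p'.2, 1) = c • mx γ (mx g (p.2, 1)) at h2
    have h3 : (ofComplex p'.1 : ℍ) = (g'⁻¹ * γ * g) • ofComplex p.1 := by
      rw [mul_smul, mul_smul, ← h1, inv_smul_smul]
    have h4 : ((p'.2, 1) : E) = c • (nn (g'⁻¹ * γ * g) p.2, jj (g'⁻¹ * γ * g) p.2) := by
      rw [← mx_pair, mx_mul, mx_mul, ← mx_smul, ← h2, mx_inv_mx]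
    have h5 : p'.1 = nn (g'⁻¹ * γ * g) p.1 / jj (g'⁻¹ * γ * g) p.1 := by
      have := congrArg (fun z : ℍ => (z : ℂ)) h3
      rwa [coe_smul_H, ofC_im hp, ofC_im hp'] at this
    have h6 : (1 : ℂ) = c * jj (g'⁻¹ * γ * g) p.2 := congrArg Prod.snd h4
    have h7 : p'.2 = c * nn (g'⁻¹ * γ * g) p.2 := congrArg Prod.fst h4
    have h8 : jj (g'⁻¹ * γ * g) p.2 ≠ 0 := by
      intro h0
      rw [h0, mul_zero] at h6
      exact one_ne_zero h6
    refine ⟨γ, hγ, h8, Prod.ext h5 ?_⟩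
    show p'.2 = nn (g'⁻¹ * γ * g) p.2 / jj (g'⁻¹ * γ * g) p.2
    rw [eq_div_iff h8, h7]
    linear_combination -nn (g'⁻¹ * γ * g) p.2 * h6
  · rintro ⟨γ, hγ, h8, h5⟩
    refine ⟨γ, hγ, (jj (g'⁻¹ * γ * g) p.2)⁻¹, inv_ne_zero h8, ?_, ?_⟩
    · change g' • ofComplex p'.1 = γ • g • ofComplex p.1
      have h3 : (ofComplex p'.1 : ℍ) = (g'⁻¹ * γ * g) • ofComplex p.1 := by
        apply UpperHalfPlane.ext
        rw [coe_smul_H, ofC_im hp, ofC_im hp', h5]
        rfl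
      rw [h3, ← mul_smul, ← mul_smul]
      congr 1
      group
    · change mx g' (p'.2, 1) = (jj (g'⁻¹ * γ * g) p.2)⁻¹ • mx γ (mx g (p.2, 1))
      have h9 : ((p'.2, 1) : E) = (jj (g'⁻¹ * γ * g) p.2)⁻¹ •
          (nn (g'⁻¹ * γ * g) p.2, jj (g'⁻¹ * γ * g) p.2) := by
        refine Prod.ext ?_ ?_
        · rw [h5]
          show nn (g'⁻¹ * γ * g) p.2 / jj (g'⁻¹ * γ * g) p.2 = _ * _
          rw [div_eq_inv_mul]
        · show (1 : ℂ) = _ * _
          rw [inv_mul_cancel₀ h8]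
      rw [h9, ← mx_pair, mx_mul, mx_mul, mx_smul, mx_mx_inv]

/-- The map from `YY` to the coordinates. -/
noncomputable def aI (g : SL(2, ℝ)) (y : YY) : E :=
  (((g⁻¹ • y.1.1 : ℍ) : ℂ), (mx g⁻¹ y.1.2).1 / (mx g⁻¹ y.1.2).2)

theorem aI_mem (g : SL(2, ℝ)) (y : YY) : aI g y ∈ UU := (g⁻¹ • y.1.1).im_pos

theorem pj_yI_aI (g : SL(2, ℝ)) {y : YY} (hy : (mx g⁻¹ y.1.2).2 ≠ 0) : qM g (aI g y) = pj y := by
  unfold qM
  symm
  rw [pj_eq_iff]
  refine ⟨1, CG.one_mem, ((mx g⁻¹ y.1.2).2)⁻¹, inv_ne_zero hy, ?_, ?_⟩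
  · rw [one_smul]
    change g • ofComplex (aI g y).1 = y.1.1
    have h1 : (ofComplex (aI g y).1 : ℍ) = g⁻¹ • y.1.1 := by
      apply UpperHalfPlane.ext
      exact ofC_im (aI_mem g y)
    rw [h1, smul_inv_smul]
  · rw [mx_one]
    change mx g ((aI g y).2, 1) = _
    have h2 : (((aI g y).2, 1) : E) = ((mx g⁻¹ y.1.2).2)⁻¹ • mx g⁻¹ y.1.2 := by
      refine Prod.ext ?_ ?_
      · show (mx g⁻¹ y.1.2).1 / (mx g⁻¹ y.1.2).2 = _ * _
        rw [div_eq_inv_mul]
      · show (1 : ℂ) = _ * _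
        rw [inv_mul_cancel₀ hy]
    rw [h2, mx_smul, mx_mx_inv]

theorem aI_yI (g : SL(2, ℝ)) {p : E} (hp : p ∈ UU) : aI g (yI g p) = p := by
  unfold aI yI
  simp only
  rw [mx_inv_mx, inv_smul_smul]
  refine Prod.ext (ofC_im hp) ?_
  show p.2 / 1 = p.2
  rw [div_one]

theorem continuousOn_aI (g : SL(2, ℝ)) : ContinuousOn (aI g) {y : YY | (mx g⁻¹ y.1.2).2 ≠ 0} := by
  have c1 : Continuous fun y : YY => ((g⁻¹ • y.1.1 : ℍ) : ℂ) :=
    UpperHalfPlane.continuous_coe.comp ((continuous_fst.comp continuous_subtype_val).const_smul _)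
  have c2 : Continuous fun y : YY => mx g⁻¹ y.1.2 :=
    (continuous_mx _).comp (continuous_snd.comp continuous_subtype_val)
  exact c1.continuousOn.prodMk ((continuous_fst.comp c2).continuousOn.div
    (continuous_snd.comp c2).continuousOn fun y hy => hy)

theorem isOpen_image_qM (g : SL(2, ℝ)) {T : Set E} (hT : IsOpen T) (hTU : T ⊆ UU) :
    IsOpen (qM g '' T) := by
  have c2 : Continuous fun y : YY => (mx g⁻¹ y.1.2).2 :=
    continuous_snd.comp ((continuous_mx _).comp (continuous_snd.comp continuous_subtype_val))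
  have ho : IsOpen {y : YY | (mx g⁻¹ y.1.2).2 ≠ 0} := isOpen_ne_fun c2 continuous_const
  have h1 : IsOpen ({y : YY | (mx g⁻¹ y.1.2).2 ≠ 0} ∩ aI g ⁻¹' T) :=
    (continuousOn_aI g).isOpen_inter_preimage ho hT
  have h2 : qM g '' T = pj '' ({y : YY | (mx g⁻¹ y.1.2).2 ≠ 0} ∩ aI g ⁻¹' T) := by
    ext q
    constructor
    · rintro ⟨p, hp, rfl⟩
      refine ⟨yI g p, ⟨?_, ?_⟩, rfl⟩
      · show (mx g⁻¹ (mx g (p.2, 1))).2 ≠ 0
        rw [mx_inv_mx]
        exact one_ne_zero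
      · rw [mem_preimage, aI_yI g (hTU hp)]
        exact hp
    · rintro ⟨y, ⟨hy, hy'⟩, rfl⟩
      exact ⟨aI g y, hy', pj_yI_aI g hy⟩
  rw [h2]
  exact isOpenQuotientMap_pj.isOpenMap _ h1

/-- The target of a chart. -/
def TV (z : ℍ) : Set E := {p | p ∈ UU ∧ dist (ofComplex p.1) z < 1 / 2}

theorem isOpen_TV (z : ℍ) : IsOpen (TV z) := by
  have h1 : ContinuousOn (fun p : E => dist (ofComplex p.1) z) UU := by
    intro p hp
    apply ContinuousAt.continuousWithinAt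
    have h2 : ContinuousAt (fun p : E => (ofComplex p.1 : ℍ)) p :=
      ContinuousAt.comp (g := (ofComplex : ℂ → ℍ)) (f := fun p : E => p.1)
        (continuousAt_ofComplex hp) continuous_fst.continuousAt
    exact Filter.Tendsto.dist h2 tendsto_const_nhds
  exact h1.isOpen_inter_preimage isOpen_UU isOpen_Iio

theorem injOn_qM (g : SL(2, ℝ)) (z : ℍ) : InjOn (qM g) (TV z) := by
  intro p hp p' hp' h
  obtain ⟨γ, hγ, h1, h2⟩ := (qM_eq_iff hp.1 hp'.1).1 h
  have h3 : (ofComplex p'.1 : ℍ) = (g⁻¹ * γ * g) • ofComplex p.1 := by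
    apply UpperHalfPlane.ext
    rw [coe_smul_H, ofC_im hp.1, ofC_im hp'.1, h2]
    rfl
  have h4 : γ = 1 := by
    refine CG_far.eq_of_dist_lt hγ CG.one_mem (z := g • ofComplex p.1) ?_
    rw [one_smul]
    have h5 : dist (γ • g • ofComplex p.1) (g • ofComplex p.1) =
        dist (ofComplex p'.1 : ℍ) (ofComplex p.1) := by
      have h6 := dist_smul g ((g⁻¹ * γ * g) • ofComplex p.1 : ℍ) (ofComplex p.1)
      rw [h3, ← h6, mul_smul, mul_smul, smul_inv_smul]
    rw [h5]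
    have := dist_triangle_right (ofComplex p'.1) (ofComplex p.1) z
    linarith [hp.2, hp'.2]
  rw [h2, h4, mul_one, inv_mul_cancel, FF_one]

/-- The inverse of a chart. -/
noncomputable def chI (g : SL(2, ℝ)) (z : ℍ) : OpenPartialHomeomorph E MX :=
  OpenPartialHomeomorph.ofContinuousOpenRestrict ((injOn_qM g z).toPartialEquiv (qM g) (TV z))
    ((continuousOn_qM g).mono fun _ hp => hp.1)
    (by
      intro S hS
      obtain ⟨O, hO, rfl⟩ := isOpen_induced_iff.1 hS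
      have : (TV z).domRestrict (qM g) '' (Subtype.val ⁻¹' O) = qM g '' (TV z ∩ O) := by
        ext q
        constructor
        · rintro ⟨p, hp, rfl⟩
          exact ⟨p, ⟨p.2, hp⟩, rfl⟩
        · rintro ⟨p, ⟨hp, hp'⟩, rfl⟩
          exact ⟨⟨p, hp⟩, hp', rfl⟩
      show IsOpen ((TV z).domRestrict (qM g) '' (Subtype.val ⁻¹' O))
      rw [this]
      exact isOpen_image_qM g ((isOpen_TV z).inter hO) fun _ hp => hp.1.1)
    (isOpen_TV z)

/-- The rotation `w ↦ -1 / w`. -/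
noncomputable def Sm : SL(2, ℝ) := ⟨!![0, -1; 1, 0], by simp [Matrix.det_fin_two]⟩

theorem exists_qM (q : MX) : ∃ g : SL(2, ℝ), ∃ p ∈ UU, qM g p = q := by
  obtain ⟨y, rfl⟩ := pj_surj q
  by_cases h : y.1.2.2 = 0
  · have h1 : y.1.2.1 ≠ 0 := by
      intro h1
      exact y.2 (Prod.ext h1 h)
    refine ⟨Sm, aI Sm y, aI_mem _ y, pj_yI_aI _ ?_⟩
    have h2 : (mx Sm⁻¹ y.1.2).2 = -y.1.2.1 := by
      unfold mx Sm
      rw [Matrix.SpecialLinearGroup.coe_inv]
      simp [Matrix.adjugate_fin_two]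
    rw [h2]
    exact neg_ne_zero.2 h1
  · refine ⟨1, aI 1 y, aI_mem _ y, pj_yI_aI _ ?_⟩
    rw [inv_one, mx_one]
    exact h

theorem mem_TV_self {p : E} (hp : p ∈ UU) : p ∈ TV (ofComplex p.1) :=
  ⟨hp, by rw [dist_self]; norm_num⟩

theorem exists_chI (q : MX) : ∃ iz : SL(2, ℝ) × ℍ, q ∈ (chI iz.1 iz.2).target := by
  obtain ⟨g, p, hp, rfl⟩ := exists_qM q
  exact ⟨(g, ofComplex p.1), (chI g _).map_source (mem_TV_self hp)⟩

noncomputable instance : ChartedSpace E MX where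
  atlas := {e | ∃ g z, e = (chI g z).symm}
  chartAt q := (chI (exists_chI q).choose.1 (exists_chI q).choose.2).symm
  mem_chart_source q := (exists_chI q).choose_spec
  chart_mem_atlas _ := ⟨_, _, rfl⟩

/-- `MX` has the structure `IsQ`. -/
theorem isQ_MX : IsQ MX qM where
  atlas_spec := by
    rintro e ⟨g, z, rfl⟩
    exact ⟨g, fun p hp => hp.1, fun p _ => rfl⟩
  exists_chart := by
    intro g p hp
    exact ⟨(chI g (ofComplex p.1)).symm, ⟨_, _, rfl⟩, mem_TV_self hp, fun p hp => hp.1,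
      fun p' _ => rfl⟩
  eq_iff := fun g g' p hp p' hp' => qM_eq_iff hp hp'
  cont := continuousOn_qM

theorem contDiffAt_FF {g : SL(2, ℝ)} {p : E} (hp : p ∈ UU)
    (h : jj g p.2 ≠ 0) : ContDiffAt ℂ ω (FF g) p := by
  unfold FF nn jj at *
  have h1 : ContDiffAt ℂ ω (fun q : E => q.1) p := contDiffAt_fst
  have h2 : ContDiffAt ℂ ω (fun q : E => q.2) p := contDiffAt_snd
  have hj : (g 1 0 : ℂ) * p.1 + (g 1 1 : ℂ) ≠ 0 := jj_ne g hp
  exact (((contDiffAt_const.mul h1).add contDiffAt_const).div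
      ((contDiffAt_const.mul h1).add contDiffAt_const) hj).prodMk
    (((contDiffAt_const.mul h2).add contDiffAt_const).div
      ((contDiffAt_const.mul h2).add contDiffAt_const) h)

theorem continuous_jj2 (g : SL(2, ℝ)) : Continuous fun p : E => jj g p.2 := by
  unfold jj
  fun_prop

/-- transition maps between the charts, locally. -/
theorem IsQ.trans {X : Type} [TopologicalSpace X] [ChartedSpace E X] {qq : SL(2, ℝ) → E → X}
    (hQ : IsQ X qq) {e e' : OpenPartialHomeomorph X E} {g g' : SL(2, ℝ)}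
    (he : e.target ⊆ UU) (he1 : ∀ p ∈ e.target, e.symm p = qq g p)
    (he' : e'.target ⊆ UU) (he1' : ∀ p ∈ e'.target, e'.symm p = qq g' p)
    {y : E} (hy1 : y ∈ e.target) (hy2 : e.symm y ∈ e'.source) :
    ∃ h : SL(2, ℝ), (∃ γ ∈ CG, h = g'⁻¹ * γ * g) ∧ jj h y.2 ≠ 0 ∧
      ∀ᶠ x in 𝓝 y, e' (e.symm x) = FF h x := by
  have hyU := he hy1
  have hy3 : e' (e.symm y) ∈ e'.target := e'.map_source hy2
  have h1 : qq g y = qq g' (e' (e.symm y)) := by
    rw [← he1' _ hy3, e'.left_inv hy2, he1 y hy1]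
  obtain ⟨γ, hγ, h2, h3⟩ := (hQ.eq_iff g g' y hyU _ (he' hy3)).1 h1
  refine ⟨g'⁻¹ * γ * g, ⟨γ, hγ, rfl⟩, h2, ?_⟩
  have hF := contDiffAt_FF hyU h2
  have c1 : ∀ᶠ x in 𝓝 y, FF (g'⁻¹ * γ * g) x ∈ e'.target := by
    apply hF.continuousAt.eventually_mem
    rw [← h3]
    exact e'.open_target.mem_nhds hy3
  have c2 : ∀ᶠ x in 𝓝 y, jj (g'⁻¹ * γ * g) x.2 ≠ 0 :=
    (continuous_jj2 _).continuousAt.eventually_ne h2
  filter_upwards [c1, c2, e.open_target.mem_nhds hy1] with x hx1 hx2 hx3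
  have hxU := he hx3
  have h4 : qq g x = qq g' (FF (g'⁻¹ * γ * g) x) :=
    (hQ.eq_iff g g' x hxU _ (FF_mem hxU)).2 ⟨γ, hγ, hx2, rfl⟩
  rw [he1 x hx3, h4, ← he1' _ hx1, e'.right_inv hx1]

theorem IsQ.isManifold {X : Type} [TopologicalSpace X] [ChartedSpace E X]
    {qq : SL(2, ℝ) → E → X} (hQ : IsQ X qq) : IsManifold 𝓘(ℂ, E) ω X := by
  apply isManifold_of_contDiffOn
  intro e e' he he' y hy
  simp only [modelWithCornersSelf_coe, modelWithCornersSelf_coe_symm, Function.comp_id,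
    Function.id_comp, preimage_id, range_id, inter_univ] at hy ⊢
  obtain ⟨hy1, hy2⟩ : y ∈ e.target ∧ e.symm y ∈ e'.source := by
    simpa using hy
  obtain ⟨g, hg, hg1⟩ := hQ.atlas_spec e he
  obtain ⟨g', hg', hg1'⟩ := hQ.atlas_spec e' he'
  obtain ⟨h, -, h2, h3⟩ := hQ.trans hg hg1 hg' hg1' hy1 hy2
  apply ContDiffAt.contDiffWithinAt
  exact (contDiffAt_FF (hg hy1) h2).congr_of_eventuallyEq h3

theorem IsQ.isManifold_real {X : Type} [TopologicalSpace X] [ChartedSpace E X]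
    {qq : SL(2, ℝ) → E → X} (hQ : IsQ X qq) : IsManifold 𝓘(ℝ, E) ∞ X := by
  apply isManifold_of_contDiffOn
  intro e e' he he' y hy
  simp only [modelWithCornersSelf_coe, modelWithCornersSelf_coe_symm, Function.comp_id,
    Function.id_comp, preimage_id, range_id, inter_univ] at hy ⊢
  obtain ⟨hy1, hy2⟩ : y ∈ e.target ∧ e.symm y ∈ e'.source := by
    simpa using hy
  obtain ⟨g, hg, hg1⟩ := hQ.atlas_spec e he
  obtain ⟨g', hg', hg1'⟩ := hQ.atlas_spec e' he'
  obtain ⟨h, -, h2, h3⟩ := hQ.trans hg hg1 hg' hg1' hy1 hy2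
  apply ContDiffAt.contDiffWithinAt
  exact (((contDiffAt_FF (hg hy1) h2).restrict_scalars ℝ).of_le (by simp)).congr_of_eventuallyEq h3

/-- The compact complex surface `Γ \ (ℍ × ℙ¹)`. -/
theorem t_MAN : S_MAN :=
  ⟨MX, inferInstance, inferInstance, inferInstance, inferInstance, inferInstance,
    isQ_MX.isManifold, qM, isQ_MX⟩

end Pool.Agent.Run7.h532.KS
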