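import Pool.Agent.Run7.h532.KS.Wrap
import Pool.Agent.TH997.J116

/-!
# Stokes' theorem on the quotient curve, divergence form
-/

set_option autoImplicit false

open scoped Manifold ContDiff Topology ComplexConjugate MatrixGroups UpperHalfPlane Matrix
open Set Filter Metric MeasureTheory

namespace Pool.Agent.Run7.h532.KS

open Pool.Agent.W711.KC (jj nn CG jj_ne det_eq im_mob CG_far)
open Pool.Agent.TH598.KG (Cutoff d1)
open Pool.Agent.TH997.KG (VV isOpen_VV base_stokes exists_cutoff)

theorem int_fderiv_zero {f : ℂ → ℂ} (hf : ContDiff ℝ 1 f) (hc : HasCompactSupport f) (v : ℂ) :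
    Continuous (fun x => fderiv ℝ f x v) ∧ HasCompactSupport (fun x => fderiv ℝ f x v) ∧
      ∫ x, fderiv ℝ f x v = 0 := by
  have hcont : Continuous fun x => fderiv ℝ f x v :=
    (hf.continuous_fderiv (by simp)).clm_apply continuous_const
  have hcs : HasCompactSupport fun x => fderiv ℝ f x v := by
    refine (hc.fderiv (𝕜 := ℝ)).mono' ?_
    intro x hx
    apply subset_closure
    simp only [Function.mem_support, ne_eq] at hx ⊢
    intro h0
    apply hx
    simp [h0]
  refine ⟨hcont, hcs, ?_⟩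
  have := integral_mul_fderiv_eq_neg_fderiv_mul_of_integrable (μ := (volume : Measure ℂ))
    (f := fun _ => (1 : ℂ)) (g := f) (v := v) (by simp)
    (by simpa using hcont.integrable_of_hasCompactSupport hcs)
    (by simpa using hf.continuous.integrable_of_hasCompactSupport hc)
    (by intro x _; exact differentiableAt_const _)
    (by intro x _; exact (hf.differentiable (by simp)).differentiableAt)
  simpa using this

theorem d1_int {f : ℂ → ℂ} (hf : ContDiff ℝ 1 f) (hc : HasCompactSupport f) :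
    Integrable (d1 f) ∧ ∫ x, d1 f x = 0 := by
  obtain ⟨h1, h2, h3⟩ := int_fderiv_zero hf hc 1
  obtain ⟨g1, g2, g3⟩ := int_fderiv_zero hf hc Complex.I
  have i1 := h1.integrable_of_hasCompactSupport (μ := volume) h2
  have i2 := g1.integrable_of_hasCompactSupport (μ := volume) g2
  unfold d1
  refine ⟨(i1.sub (i2.const_mul _)).const_mul _, ?_⟩
  rw [integral_const_mul, integral_sub i1 (i2.const_mul _), integral_const_mul, h3, g3]
  simp

theorem d1_mul {f g : ℂ → ℂ} {p : ℂ} (hf : DifferentiableAt ℝ f p)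
    (hg : DifferentiableAt ℝ g p) :
    d1 (fun q => f q * g q) p = f p * d1 g p + g p * d1 f p := by
  unfold d1
  rw [fderiv_fun_mul hf hg]
  simp only [_root_.add_apply, _root_.smul_apply, smul_eq_mul]
  ring

/-- a continuous function on the upper half plane times something supported in the support of `φ` -/
theorem cont_ext {φ : ℂ → ℝ} (hφ : Cutoff CG φ) {G : ℂ → ℂ} (hG : ContinuousOn G VV)
    (h0 : ∀ z, z ∉ tsupport φ → G z = 0) : Continuous G ∧ HasCompactSupport G := by
  refine ⟨?_, ?_⟩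
  · rw [continuous_iff_continuousAt]
    intro z
    by_cases hz : z ∈ tsupport φ
    · exact hG.continuousAt (isOpen_VV.mem_nhds (hφ.supp hz))
    · have h2 : ∀ᶠ w in 𝓝 z, w ∉ tsupport φ := (isClosed_tsupport φ).isOpen_compl.mem_nhds hz
      refine (continuousAt_const (y := (0 : ℂ))).congr ?_
      filter_upwards [h2] with w hw
      exact (h0 w hw).symm
  · refine HasCompactSupport.of_support_subset_isCompact hφ.compact.isCompact ?_
    intro z hz
    by_contra h
    exact hz (h0 z h)

theorem continuousOn_d1 {β : ℂ → ℂ} (hβ : ContDiffOn ℝ 1 β VV) : ContinuousOn (d1 β) VV := by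
  have h1 : ContinuousOn (fderiv ℝ β) VV :=
    hβ.continuousOn_fderiv_of_isOpen isOpen_VV (by norm_num)
  unfold d1
  exact continuousOn_const.mul ((h1.clm_apply continuousOn_const).sub
    (continuousOn_const.mul (h1.clm_apply continuousOn_const)))

theorem stokes_div {φ : ℂ → ℝ} (hφ : Cutoff CG φ) {β : ℂ → ℂ} (hβ : ContDiffOn ℝ 1 β VV)
    (heq : ∀ g ∈ CG, ∀ z : ℂ, 0 < z.im → β (nn g z / jj g z) = conj (jj g z) ^ 2 * β z) :
    Integrable (fun z => (φ z : ℂ) * d1 β z) ∧ ∫ z in VV, (φ z : ℂ) * d1 β z = 0 := by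
  have := CG_far.properlyDiscontinuous one_pos
  have : Countable CG := CG_far.countable one_pos
  have hB : ∫ z in VV, β z * d1 (fun w => (φ w : ℂ)) z = 0 := base_stokes hφ hβ.continuousOn heq
  set f : ℂ → ℂ := fun w => (φ w : ℂ) with hf
  have hfs : ContDiff ℝ ∞ f := Complex.ofRealCLM.contDiff.comp hφ.smooth
  have hfs1 : ContDiff ℝ 1 f := hfs.of_le (WithTop.coe_le_coe.2 le_top)
  have hd0 : ∀ z, z ∉ tsupport φ → d1 f z = 0 := by
    intro z hz
    have h1 := notMem_tsupport_iff_eventuallyEq.1 hz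
    have h2 : f =ᶠ[𝓝 z] fun _ => 0 := by
      filter_upwards [h1] with w hw
      change (φ w : ℂ) = 0
      rw [hw]
      simp
    unfold d1
    rw [h2.fderiv_eq]
    simp
  have hf0 : ∀ z, z ∉ tsupport φ → f z = 0 := by
    intro z hz
    have : φ z = 0 := image_eq_zero_of_notMem_tsupport hz
    simp [hf, this]
  have hd1c : Continuous (d1 f) := by
    unfold d1
    have h1 : Continuous (fderiv ℝ f) := hfs.continuous_fderiv (by simp)
    fun_prop
  -- the product
  have hW : ContDiff ℝ 1 (fun z => f z * β z) := by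
    rw [contDiff_iff_contDiffAt]
    intro z
    by_cases hz : z ∈ tsupport φ
    · exact hfs1.contDiffAt.mul (hβ.contDiffAt (isOpen_VV.mem_nhds (hφ.supp hz)))
    · have h2 : ∀ᶠ w in 𝓝 z, w ∉ tsupport φ := (isClosed_tsupport φ).isOpen_compl.mem_nhds hz
      refine (contDiffAt_const (c := (0 : ℂ))).congr_of_eventuallyEq ?_
      filter_upwards [h2] with w hw
      rw [hf0 w hw, zero_mul]
  have hWc : HasCompactSupport (fun z => f z * β z) := by
    refine HasCompactSupport.of_support_subset_isCompact hφ.compact.isCompact ?_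
    intro z hz
    by_contra h
    exact hz (by simp [hf0 z h])
  obtain ⟨hi, h0⟩ := d1_int hW hWc
  have hWd : ∀ z ∈ VV, d1 (fun z => f z * β z) z = f z * d1 β z + β z * d1 f z := by
    intro z hz
    exact d1_mul (hfs1.differentiable (by simp) z)
      ((hβ.contDiffAt (isOpen_VV.mem_nhds hz)).differentiableAt (by simp))
  have hWd0 : ∀ z, z ∉ VV → d1 (fun z => f z * β z) z = 0 := by
    intro z hz
    have hz' : z ∉ tsupport φ := fun h => hz (hφ.supp h)
    have h2 : ∀ᶠ w in 𝓝 z, w ∉ tsupport φ := (isClosed_tsupport φ).isOpen_compl.mem_nhds hz'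
    have h3 : (fun z => f z * β z) =ᶠ[𝓝 z] fun _ => 0 := by
      filter_upwards [h2] with w hw
      rw [hf0 w hw, zero_mul]
    unfold d1
    rw [h3.fderiv_eq]
    simp
  have c1 := cont_ext hφ (G := fun z => f z * d1 β z)
    (hfs.continuous.continuousOn.mul (continuousOn_d1 hβ)) (fun z hz => by rw [hf0 z hz, zero_mul])
  have c2 := cont_ext hφ (G := fun z => β z * d1 f z)
    (hβ.continuousOn.mul hd1c.continuousOn) (fun z hz => by rw [hd0 z hz, mul_zero])
  have i1 : Integrable (fun z => f z * d1 β z) := c1.1.integrable_of_hasCompactSupport c1.2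
  have i2 : Integrable (fun z => β z * d1 f z) := c2.1.integrable_of_hasCompactSupport c2.2
  refine ⟨i1, ?_⟩
  have e1 : ∫ z in VV, d1 (fun z => f z * β z) z = 0 := by
    rw [setIntegral_eq_integral_of_forall_compl_eq_zero fun z hz => hWd0 z hz, h0]
  have e2 : ∫ z in VV, d1 (fun z => f z * β z) z =
      ∫ z in VV, (f z * d1 β z + β z * d1 f z) :=
    setIntegral_congr_fun isOpen_VV.measurableSet hWd
  rw [e2, integral_add i1.integrableOn i2.integrableOn, hB, add_zero] at e1
  exact e1

/-- If `φ * Re (d1 β) ≥ 0` then it vanishes. -/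
theorem stokes_pos {φ : ℂ → ℝ} (hφ : Cutoff CG φ) {β : ℂ → ℂ} (hβ : ContDiffOn ℝ 1 β VV)
    (heq : ∀ g ∈ CG, ∀ z : ℂ, 0 < z.im → β (nn g z / jj g z) = conj (jj g z) ^ 2 * β z)
    (hpos : ∀ z ∈ VV, 0 ≤ φ z * (d1 β z).re) : ∀ z ∈ VV, φ z * (d1 β z).re = 0 := by
  obtain ⟨hi, h0⟩ := stokes_div hφ hβ heq
  have e1 : ∫ z in VV, φ z * (d1 β z).re = 0 := by
    have h1 := integral_re (𝕜 := ℂ) hi.integrableOn (μ := volume.restrict VV)
    have h2 : ∀ z, RCLike.re ((φ z : ℂ) * d1 β z) = φ z * (d1 β z).re := by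
      intro z
      show ((φ z : ℂ) * d1 β z).re = _
      rw [Complex.re_ofReal_mul]
    simp only [h2] at h1
    rw [h1, h0]
    simp
  have hi2 : IntegrableOn (fun z => φ z * (d1 β z).re) VV := by
    have h1 := hi.re
    have h2 : (fun z => RCLike.re ((φ z : ℂ) * d1 β z)) = fun z => φ z * (d1 β z).re := by
      funext z
      show ((φ z : ℂ) * d1 β z).re = _
      rw [Complex.re_ofReal_mul]
    rw [h2] at h1
    exact h1.integrableOn
  have hae : 0 ≤ᵐ[volume.restrict VV] fun z => φ z * (d1 β z).re := by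
    filter_upwards [ae_restrict_mem isOpen_VV.measurableSet] with z hz using hpos z hz
  have h3 := (setIntegral_eq_zero_iff_of_nonneg_ae hae hi2).1 e1
  have hc : ContinuousOn (fun z => φ z * (d1 β z).re) VV :=
    hφ.smooth.continuous.continuousOn.mul
      (Complex.continuous_re.comp_continuousOn (continuousOn_d1 hβ))
  have h4 := Measure.eqOn_open_of_ae_eq h3 isOpen_VV hc continuousOn_const
  intro z hz
  exact h4 hz

theorem exists_phi_ne {φ : ℂ → ℝ} (hφ : Cutoff CG φ) : ∃ z ∈ VV, φ z ≠ 0 := by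
  by_contra h
  push Not at h
  have h1 := hφ.sum UpperHalfPlane.I
  have h2 : ∀ g : CG, φ (((g : SL(2, ℝ)) • UpperHalfPlane.I : ℍ) : ℂ) = 0 := fun g =>
    h _ (UpperHalfPlane.im_pos _)
  simp only [h2, tsum_zero] at h1
  exact zero_ne_one h1

end Pool.Agent.Run7.h532.KS
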