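import Pool.Agent.Run7.h532.KS.Wrap

/-!
# The action on the potentials; inequalities for the Levi forms
-/

set_option autoImplicit false

open scoped Manifold ContDiff Topology ComplexConjugate MatrixGroups UpperHalfPlane Matrix
open Set Filter Metric

namespace Pool.Agent.Run7.h532.KS

open Pool.Agent.W711.KC (jj nn CG jj_ne det_eq im_mob)

theorem cross (g : SL(2, ℝ)) (a b : ℂ) : nn g a * jj g b - nn g b * jj g a = a - b := by
  have h := congrArg (fun x : ℝ => (x : ℂ)) (det_eq g)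
  push_cast at h
  unfold nn jj
  linear_combination (a - b) * h

theorem jj_conj (g : SL(2, ℝ)) (a : ℂ) : jj g (conj a) = conj (jj g a) := by
  unfold jj
  simp

theorem nn_conj (g : SL(2, ℝ)) (a : ℂ) : nn g (conj a) = conj (nn g a) := by
  unfold nn
  simp

theorem normSq_mob (g : SL(2, ℝ)) {a b : ℂ} (ha : jj g a ≠ 0) (hb : jj g b ≠ 0) :
    Complex.normSq (nn g a / jj g a - nn g b / jj g b) =
      Complex.normSq (a - b) / (Complex.normSq (jj g b) * Complex.normSq (jj g a)) := by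
  have h : nn g a / jj g a - nn g b / jj g b = (a - b) / (jj g b * jj g a) := by
    rw [← cross g a b]
    field_simp
  rw [h, Complex.normSq_div, Complex.normSq_mul]

theorem t_PLU : S_PLU := by
  intro a k g p ha hp hj
  have hj1 : jj g p.1 ≠ 0 := jj_ne g hp
  have hj1' : jj g (conj p.1) ≠ 0 := by
    rw [jj_conj]
    simpa using hj1
  have hA : 0 < Complex.normSq (jj g p.1) := Complex.normSq_pos.2 hj1
  have hB : 0 < Complex.normSq (jj g p.2) := Complex.normSq_pos.2 hj
  have h1 : PP (FF g p) = PP p / (Complex.normSq (jj g p.1) * Complex.normSq (jj g p.2)) :=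
    normSq_mob g hj hj1
  have h2 : QQ (FF g p) = QQ p / (Complex.normSq (jj g p.1) * Complex.normSq (jj g p.2)) := by
    have h3 := normSq_mob g hj hj1'
    rw [jj_conj, Complex.normSq_conj, nn_conj, ← map_div₀] at h3
    exact h3
  refine ⟨FF_mem hp, h1, h2, ?_⟩
  have hN := N_pos ha hp
  have him : (FF g p).1.im = p.1.im / Complex.normSq (jj g p.1) := im_mob g hp
  have hy : 0 < p.1.im := hp
  unfold Psi
  rw [h1, h2, him]
  have e1 : QQ p / (Complex.normSq (jj g p.1) * Complex.normSq (jj g p.2)) +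
      a * (PP p / (Complex.normSq (jj g p.1) * Complex.normSq (jj g p.2))) =
      (QQ p + a * PP p) / (Complex.normSq (jj g p.1) * Complex.normSq (jj g p.2)) := by ring
  rw [e1, Real.log_div hN.ne' (by positivity), Real.log_mul hA.ne' hB.ne',
    Real.log_div hy.ne' hA.ne']
  ring

theorem QP (p : E) : QQ p - PP p = 4 * p.1.im * p.2.im := by
  unfold QQ PP
  rw [Complex.normSq_apply, Complex.normSq_apply]
  simp
  ring

theorem quad_id (a k : ℝ) (p : E) :
    4 * a * p.1.im ^ 2 * (4 * a * p.2.im ^ 2) + a * k * (QQ p + a * PP p) ^ 2 -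
      (1 + a) ^ 2 * QQ p ^ 2 = QQ p ^ 2 * (a * (k - 2) - 1) + 2 * a ^ 2 * (k - 1) * PP p * QQ p +
      a ^ 2 * (1 + a * k) * PP p ^ 2 := by
  have h := QP p
  have h2 : 4 * a * p.1.im ^ 2 * (4 * a * p.2.im ^ 2) = a ^ 2 * (QQ p - PP p) ^ 2 := by
    rw [h]
    ring
  rw [h2]
  ring

/-- the numerator of `levF`. -/
noncomputable def num (a k : ℝ) (p v : E) : ℝ :=
  4 * a * p.1.im ^ 2 * Complex.normSq v.2 +
    (4 * a * p.2.im ^ 2 + k * (QQ p + a * PP p) ^ 2 / (4 * p.1.im ^ 2)) * Complex.normSq v.1 +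
    2 * (1 + a) * ((conj p.2 - p.1) ^ 2 * v.2 * conj v.1).re

theorem levF_eq (a k : ℝ) (p v : E) : levF a k p v = 4 * num a k p v / (QQ p + a * PP p) ^ 2 := rfl

theorem num_ge {a k : ℝ} (ha : 0 < a) {p : E} (hp : p ∈ UU) (v : E) :
    (QQ p ^ 2 * (a * (k - 2) - 1) + 2 * a ^ 2 * (k - 1) * PP p * QQ p +
      a ^ 2 * (1 + a * k) * PP p ^ 2) * Complex.normSq v.1 ≤
      4 * a * p.1.im ^ 2 * num a k p v := by
  have hy : 0 < p.1.im := hp
  have h1 : |((conj p.2 - p.1) ^ 2 * v.2 * conj v.1).re| ≤ QQ p * (‖v.2‖ * ‖v.1‖) := by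
    refine (Complex.abs_re_le_norm _).trans (le_of_eq ?_)
    rw [norm_mul, norm_mul, norm_pow, RCLike.norm_conj]
    have : QQ p = ‖conj p.2 - p.1‖ ^ 2 := by
      unfold QQ
      rw [← Complex.normSq_conj, map_sub, Complex.conj_conj, Complex.normSq_eq_norm_sq]
    rw [this]
    ring
  have h2 := (abs_le.1 h1).1
  rw [← quad_id]
  unfold num
  rw [Complex.normSq_eq_norm_sq, Complex.normSq_eq_norm_sq]
  set x := ‖v.2‖
  set t := ‖v.1‖
  set R := ((conj p.2 - p.1) ^ 2 * v.2 * conj v.1).re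
  have h3 : k * (QQ p + a * PP p) ^ 2 / (4 * p.1.im ^ 2) * (4 * a * p.1.im ^ 2) =
      a * k * (QQ p + a * PP p) ^ 2 := by
    field_simp
  have h4 : 0 ≤ (4 * a * p.1.im ^ 2 * x - (1 + a) * QQ p * t) ^ 2 := sq_nonneg _
  have h5 : 0 ≤ (R + QQ p * (x * t)) * (2 * (1 + a) * (4 * a * p.1.im ^ 2)) :=
    mul_nonneg (by linarith) (by positivity)
  have h6 : 4 * a * p.1.im ^ 2 * (4 * a * p.1.im ^ 2 * x ^ 2 +
      (4 * a * p.2.im ^ 2 + k * (QQ p + a * PP p) ^ 2 / (4 * p.1.im ^ 2)) * t ^ 2 +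
      2 * (1 + a) * R) - (4 * a * p.1.im ^ 2 * (4 * a * p.2.im ^ 2) +
        a * k * (QQ p + a * PP p) ^ 2 - (1 + a) ^ 2 * QQ p ^ 2) * t ^ 2 =
      (4 * a * p.1.im ^ 2 * x - (1 + a) * QQ p * t) ^ 2 +
        (R + QQ p * (x * t)) * (2 * (1 + a) * (4 * a * p.1.im ^ 2)) := by
    linear_combination t ^ 2 * h3
  linarith

theorem t_POS1 : S_POS1 := by
  intro a k p v ha hk hak hp
  have hy : 0 < p.1.im := hp
  have hN := N_pos ha hp
  have h1 := num_ge (k := k) ha hp v
  have hP := PP_nonneg p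
  have hQ := QQ_nonneg p
  have hn := Complex.normSq_nonneg v.1
  have h2 : 0 ≤ (QQ p ^ 2 * (a * (k - 2) - 1) + 2 * a ^ 2 * (k - 1) * PP p * QQ p +
      a ^ 2 * (1 + a * k) * PP p ^ 2) * Complex.normSq v.1 := by
    refine mul_nonneg (add_nonneg (add_nonneg ?_ ?_) ?_) hn
    · exact mul_nonneg (sq_nonneg _) (by linarith)
    · have : 0 ≤ k - 1 := by linarith
      positivity
    · have : 0 ≤ k := by linarith
      positivity
  have h3 : 0 ≤ num a k p v := by
    have h4 : 0 ≤ 4 * a * p.1.im ^ 2 * num a k p v := h2.trans h1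
    by_contra h5
    push Not at h5
    have : 4 * a * p.1.im ^ 2 * num a k p v < 0 := mul_neg_of_pos_of_neg (by positivity) h5
    linarith
  rw [levF_eq]
  positivity

theorem t_POS2 : S_POS2 := by
  intro p v hp hv
  have hy : 0 < p.1.im := hp
  have hN := N_pos one_pos hp
  have h1 := num_ge (a := 1) (k := 5) one_pos hp v
  have hP := PP_nonneg p
  have hQ := QQ_nonneg p
  have h3 : 0 < num 1 5 p v := by
    by_cases h0 : v.1 = 0
    · have h2 : v.2 ≠ 0 := fun h2 => hv (Prod.ext h0 h2)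
      have h4 : 0 < Complex.normSq v.2 := Complex.normSq_pos.2 h2
      unfold num
      rw [h0]
      simp only [map_zero, mul_zero, Complex.zero_re, add_zero]
      positivity
    · have h4 : 0 < Complex.normSq v.1 := Complex.normSq_pos.2 h0
      have h5 : 0 < QQ p ^ 2 * (1 * (5 - 2) - 1) + 2 * 1 ^ 2 * (5 - 1) * PP p * QQ p +
          1 ^ 2 * (1 + 1 * 5) * PP p ^ 2 := by
        rw [one_mul] at hN
        have h6 : 0 < (QQ p + PP p) ^ 2 := by positivity
        have h7 := mul_nonneg hP hQ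
        nlinarith [sq_nonneg (QQ p), sq_nonneg (PP p)]
      have h6 : 0 < 4 * 1 * p.1.im ^ 2 * num 1 5 p v := (mul_pos h5 h4).trans_le h1
      by_contra h7
      push Not at h7
      have : 4 * 1 * p.1.im ^ 2 * num 1 5 p v ≤ 0 :=
        mul_nonpos_of_nonneg_of_nonpos (by positivity) h7
      linarith
  rw [levF_eq]
  positivity

theorem t_POS3 : S_POS3 := by
  have key : ∀ (a k k' : ℝ) (p v : E), 0 < a → p ∈ UU →
      levF a k p v = levF a k' p v + (k - k') * (Complex.normSq v.1 / p.1.im ^ 2) := by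
    intro a k k' p v ha hp
    have hy : p.1.im ≠ 0 := ne_of_gt hp
    have hN := (N_pos ha hp).ne'
    unfold levF
    field_simp
    ring
  have key2 : ∀ p v : E, p ∈ UU → Complex.normSq v.1 / p.1.im ^ 2 ≤ levF 1 5 p v := by
    intro p v hp
    have h1 := key 1 5 4 p v one_pos hp
    have h2 := t_POS1 1 4 p v one_pos (by norm_num) (by norm_num) hp
    linarith
  refine ⟨key, key2, ?_⟩
  intro ε hε p v hp
  have h1 := key (1 / ε) 2 (2 + ε) p v (by positivity) hp
  have h2 := t_POS1 (1 / ε) (2 + ε) p v (by positivity) (by linarith) (by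
    rw [add_sub_cancel_left, one_div, inv_mul_cancel₀ hε.ne']) hp
  have h3 := mul_le_mul_of_nonneg_left (key2 p v hp) hε.le
  linarith

end Pool.Agent.Run7.h532.KS
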