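import Pool.Agent.Run7.h532.KS.Man
import Pool.Agent.PNB.Proof
import Pool.Agent.H816_Nef.J1
import Pool.Agent.H816_Nef.J5

/-!
# Forms on the quotient, given by the potentials in the charts
-/

set_option autoImplicit false

open scoped Manifold ContDiff Topology ComplexConjugate MatrixGroups UpperHalfPlane Matrix
open Set Filter Metric

namespace Pool.Agent.Run7.h532.KS

open Pool.Agent.PNB (laplaceAtZero ClosedForm IsHolDisc IsPshOn laplace_congr laplace_comb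
  laplace_sum laplace_const_mul contDiff_normSq)
open Pool.Agent.W711.KC (jj nn CG jj_ne)

theorem PP_nonneg (p : E) : 0 ≤ PP p := Complex.normSq_nonneg _

theorem QQ_nonneg (p : E) : 0 ≤ QQ p := Complex.normSq_nonneg _

theorem N_pos {a : ℝ} (ha : 0 < a) {p : E} (hp : p ∈ UU) : 0 < QQ p + a * PP p := by
  by_cases h : p.2 = conj p.1
  · have h1 : 0 < PP p := by
      unfold PP
      rw [Complex.normSq_pos, h]
      intro h2
      have h3 := congrArg Complex.im h2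
      simp at h3
      have : 0 < p.1.im := hp
      linarith
    have := QQ_nonneg p
    positivity
  · have h1 : 0 < QQ p := by
      unfold QQ
      rw [Complex.normSq_pos]
      exact sub_ne_zero.2 h
    have := PP_nonneg p
    positivity

theorem contDiff_PP : ContDiff ℝ ∞ PP := by
  unfold PP
  exact contDiff_normSq.comp (contDiff_snd.sub contDiff_fst)

theorem contDiff_QQ : ContDiff ℝ ∞ QQ := by
  unfold QQ
  exact contDiff_normSq.comp (contDiff_snd.sub (Complex.conjCLE.contDiff.comp contDiff_fst))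

theorem contDiff_im : ContDiff ℝ ∞ (fun p : E => p.1.im) :=
  Complex.imCLM.contDiff.comp contDiff_fst

theorem contDiffOn_Psi {a : ℝ} (ha : 0 < a) (k : ℝ) : ContDiffOn ℝ ∞ (Psi a k) UU := by
  unfold Psi
  refine ContDiffOn.sub ?_ ?_
  · exact (contDiff_QQ.add (contDiff_const.mul contDiff_PP)).contDiffOn.log
      fun p hp => (N_pos ha hp).ne'
  · exact contDiffOn_const.mul (contDiff_im.contDiffOn.log fun p hp => ne_of_gt hp)

/-! ### Laplacians -/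

theorem lap_add {u v : ℂ → ℝ} (hu : ContDiffAt ℝ 2 u 0) (hv : ContDiffAt ℝ 2 v 0) (c : ℝ) :
    laplaceAtZero (fun ζ => u ζ + c * v ζ) = laplaceAtZero u + c * laplaceAtZero v := by
  have h := laplace_sum (ι := Fin 2) (u := ![u, v]) (by
    intro i
    fin_cases i
    · exact hu
    · exact hv) ![1, c]
  simpa [Fin.sum_univ_two] using h

theorem lap_congr' {u v : ℂ → ℝ} (h : ∀ᶠ ζ in 𝓝 (0 : ℂ), u ζ = v ζ) :
    laplaceAtZero u = laplaceAtZero v := by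
  obtain ⟨r, hr, hb⟩ := Metric.mem_nhds_iff.1 h
  exact laplace_congr hr fun ζ hζ => hb hζ

/-- `log |jj h z|²` is harmonic. -/
theorem diff_jj {h : SL(2, ℝ)} {r : ℝ} {z : ℂ → ℂ} (hz : DifferentiableOn ℂ z (ball 0 r)) :
    DifferentiableOn ℂ (fun ζ => jj h (z ζ)) (ball 0 r) := by
  unfold jj
  exact ((differentiableOn_const _).mul hz).add (differentiableOn_const _)

theorem lap_plu (hPLU : S_PLU) {a k : ℝ} (ha : 0 < a) {r : ℝ} (hr : 0 < r) {c c' : ℂ → E}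
    (hc : DifferentiableOn ℂ c (ball 0 r)) (hU : ∀ ζ ∈ ball (0 : ℂ) r, c ζ ∈ UU) {h : SL(2, ℝ)}
    (h0 : jj h (c 0).2 ≠ 0) (he : ∀ᶠ ζ in 𝓝 (0 : ℂ), c' ζ = FF h (c ζ)) :
    laplaceAtZero (fun ζ => Psi a k (c ζ) - Psi a k (c' ζ)) = 0 := by
  have hc1 : DifferentiableOn ℂ (fun ζ => (c ζ).1) (ball 0 r) := hc.fst
  have hc2 : DifferentiableOn ℂ (fun ζ => (c ζ).2) (ball 0 r) := hc.snd
  have hmem : ball (0 : ℂ) r ∈ 𝓝 (0 : ℂ) := ball_mem_nhds 0 hr
  have hj2 : ∀ᶠ ζ in 𝓝 (0 : ℂ), jj h (c ζ).2 ≠ 0 := by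
    have h1 : ContinuousAt (fun ζ => jj h (c ζ).2) 0 :=
      ((diff_jj hc2).continuousOn).continuousAt hmem
    exact h1.eventually_ne h0
  have h1 := laplace_comb (ι := Fin 2) hr (h := ![fun ζ => jj h (c ζ).2, fun ζ => jj h (c ζ).1])
    (by
      intro i
      fin_cases i
      · exact diff_jj hc2
      · exact diff_jj hc1)
    (by
      intro i
      fin_cases i
      · exact h0
      · exact jj_ne h (hU 0 (mem_ball_self hr)))
    ![2, -(2 * (k - 1))]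
  rw [← h1]
  apply lap_congr'
  filter_upwards [he, hj2, hmem] with ζ h2 h3 h4
  have h5 := (hPLU a k h (c ζ) ha (hU ζ h4) h3).2.2.2
  rw [h2, h5]
  simp only [Fin.sum_univ_two, Matrix.cons_val_zero, Matrix.cons_val_one]
  rw [Complex.normSq_eq_norm_sq, Complex.normSq_eq_norm_sq, Real.log_pow, Real.log_pow]
  push_cast
  ring

/-! ### Discs -/

section quot

variable {X : Type} [TopologicalSpace X] [ChartedSpace E X] {qq : SL(2, ℝ) → E → X}

theorem IsQ.sub (hQ : IsQ X qq) {e : OpenPartialHomeomorph X E} (he : e ∈ atlas E X) :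
    e.target ⊆ UU := (hQ.atlas_spec e he).choose_spec.1

theorem disc_coord [IsManifold 𝓘(ℂ, E) ω X] {e : OpenPartialHomeomorph X E}
    (he : e ∈ atlas E X) {S : Set X} (hS : S ⊆ e.source) {r : ℝ} {f : ℂ → X}
    (hf : IsHolDisc E S r f) :
    DifferentiableOn ℂ (fun ζ => e (f ζ)) (ball 0 r) ∧
      ∀ ζ ∈ ball (0 : ℂ) r, e (f ζ) ∈ e.target := by
  have h1 : ContMDiffOn 𝓘(ℂ, ℂ) 𝓘(ℂ, E) ω (fun ζ => e (f ζ)) (ball 0 r) :=
    (contMDiffOn_of_mem_maximalAtlas (IsManifold.subset_maximalAtlas he)).comp hf.1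
      (fun ζ hζ => hS (hf.2 hζ))
  exact ⟨(contMDiffOn_iff_contDiffOn.1 h1).differentiableOn (by simp),
    fun ζ hζ => e.map_source (hS (hf.2 hζ))⟩

theorem disc_trans (hQ : IsQ X qq) [IsManifold 𝓘(ℂ, E) ω X] {e e' : OpenPartialHomeomorph X E}
    (he : e ∈ atlas E X) (he' : e' ∈ atlas E X) {S : Set X} (hS : S ⊆ e.source)
    (hS' : S ⊆ e'.source) {r : ℝ} {f : ℂ → X} (hf : IsHolDisc E S r f) {ζ₀ : ℂ}
    (hζ₀ : ζ₀ ∈ ball (0 : ℂ) r) :
    ∃ h : SL(2, ℝ), jj h (e (f ζ₀)).2 ≠ 0 ∧ ∀ᶠ ζ in 𝓝 ζ₀, e' (f ζ) = FF h (e (f ζ)) := by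
  obtain ⟨g, hg, hg1⟩ := hQ.atlas_spec e he
  obtain ⟨g', hg', hg1'⟩ := hQ.atlas_spec e' he'
  have h1 := disc_coord he hS hf
  have h2 : e.symm (e (f ζ₀)) ∈ e'.source := by
    rw [e.left_inv (hS (hf.2 hζ₀))]
    exact hS' (hf.2 hζ₀)
  obtain ⟨h, -, h3, h4⟩ := hQ.trans hg hg1 hg' hg1' (h1.2 ζ₀ hζ₀) h2
  refine ⟨h, h3, ?_⟩
  have h5 : ContinuousAt (fun ζ => e (f ζ)) ζ₀ :=
    h1.1.continuousOn.continuousAt (isOpen_ball.mem_nhds hζ₀)
  filter_upwards [h5.eventually h4, isOpen_ball.mem_nhds hζ₀] with ζ h6 h7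
  rwa [e.left_inv (hS (hf.2 h7))] at h6

theorem lap_charts (hQ : IsQ X qq) [IsManifold 𝓘(ℂ, E) ω X] (hPLU : S_PLU) {a k : ℝ}
    (ha : 0 < a) {e e' : OpenPartialHomeomorph X E}
    (he : e ∈ atlas E X) (he' : e' ∈ atlas E X) {S : Set X} (hS : S ⊆ e.source)
    (hS' : S ⊆ e'.source) {r : ℝ} (hr : 0 < r) {f : ℂ → X} (hf : IsHolDisc E S r f) :
    laplaceAtZero (fun ζ => Psi a k (e (f ζ)) - Psi a k (e' (f ζ))) = 0 := by
  obtain ⟨h, h1, h2⟩ := disc_trans hQ he he' hS hS' hf (mem_ball_self hr)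
  have h3 := disc_coord he hS hf
  exact lap_plu hPLU ha hr h3.1 (fun ζ hζ => hQ.sub he (h3.2 ζ hζ)) h1 h2

/-- The closed form with the potentials `Psi a k` in the charts. -/
noncomputable def frm (hQ : IsQ X qq) [IsManifold 𝓘(ℂ, E) ω X] (hPLU : S_PLU) (a k : ℝ)
    (ha : 0 < a) : ClosedForm E X where
  J := {e : OpenPartialHomeomorph X E // e ∈ atlas E X}
  V e := e.1.source
  pot e x := Psi a k (e.1 x)
  isOpen_V e := e.1.open_source
  cover x := ⟨⟨chartAt E x, chart_mem_atlas E x⟩, mem_chart_source E x⟩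
  smooth e := by
    have := hQ.isManifold_real
    have h1 : ContMDiffOn 𝓘(ℝ, E) 𝓘(ℝ, E) ∞ e.1 e.1.source :=
      contMDiffOn_of_mem_maximalAtlas (IsManifold.subset_maximalAtlas e.2)
    exact (contDiffOn_Psi ha k).contMDiffOn.comp h1
      fun x hx => hQ.sub e.2 (e.1.map_source hx)
  pluriharmonic e e' r f hr hf :=
    lap_charts hQ hPLU ha e.2 e'.2 inter_subset_left inter_subset_right hr hf

theorem c2_disc {c : ℂ → E} {r : ℝ} (hc : DifferentiableOn ℂ c (ball 0 r)) {ζ₀ : ℂ}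
    (hζ₀ : ζ₀ ∈ ball (0 : ℂ) r) (hU : c ζ₀ ∈ UU) {u : E → ℝ} (hu : ContDiffOn ℝ ∞ u UU) :
    ContDiffAt ℝ 2 (fun ζ => u (c ζ)) ζ₀ := by
  have h1 : ContDiffAt ℂ 2 c ζ₀ := (hc.analyticAt (isOpen_ball.mem_nhds hζ₀)).contDiffAt
  have h2 : ContDiffAt ℝ 2 u (c ζ₀) :=
    (hu.contDiffAt (isOpen_UU.mem_nhds hU)).of_le (WithTop.coe_le_coe.2 le_top)
  exact h2.comp ζ₀ (h1.restrict_scalars ℝ)

theorem lap_levF (hL : S_LEVI) {a k : ℝ} (ha : 0 < a) {c : ℂ → E} {r : ℝ} (hr : 0 < r)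
    (hc : DifferentiableOn ℂ c (ball 0 r)) (hU : ∀ ζ ∈ ball (0 : ℂ) r, c ζ ∈ UU) :
    laplaceAtZero (fun ζ => Psi a k (c ζ)) =
      levF a k (c 0) (deriv (fun ζ => (c ζ).1) 0, deriv (fun ζ => (c ζ).2) 0) :=
  hL a k r (fun ζ => (c ζ).1) (fun ζ => (c ζ).2) ha hr hc.fst hc.snd hU

theorem deriv_coord_ne [IsManifold 𝓘(ℂ, E) ω X] {e : OpenPartialHomeomorph X E}
    (he : e ∈ atlas E X) {S : Set X} (hS : S ⊆ e.source) {r : ℝ} (hr : 0 < r)
    {f : ℂ → X} (hf : IsHolDisc E S r f) (hd : mfderiv 𝓘(ℂ, ℂ) 𝓘(ℂ, E) f 0 ≠ 0) :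
    (deriv (fun ζ => (e (f ζ)).1) 0, deriv (fun ζ => (e (f ζ)).2) 0) ≠ ((0, 0) : ℂ × ℂ) := by
  intro h0
  apply hd
  have hmem : (0 : ℂ) ∈ ball (0 : ℂ) r := mem_ball_self hr
  have hc := disc_coord he hS hf
  set u : ℂ → E := fun ζ => e (f ζ) with hu
  have h2 : DifferentiableAt ℂ u 0 := hc.1.differentiableAt (isOpen_ball.mem_nhds hmem)
  have h1 : f =ᶠ[𝓝 0] (e.symm ∘ u) := by
    filter_upwards [isOpen_ball.mem_nhds hmem] with ζ hζ
    exact (e.left_inv (hS (hf.2 hζ))).symm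
  have hsymm : ContMDiffOn 𝓘(ℂ, E) 𝓘(ℂ, E) ω e.symm e.target :=
    contMDiffOn_symm_of_mem_maximalAtlas (IsManifold.subset_maximalAtlas he)
  have h3 : MDifferentiableAt 𝓘(ℂ, E) 𝓘(ℂ, E) e.symm (u 0) :=
    ((hsymm (u 0) (hc.2 0 hmem)).contMDiffAt (e.open_target.mem_nhds (hc.2 0 hmem))).mdifferentiableAt
      (by simp)
  have h4 := mfderiv_comp (0 : ℂ) h3 h2.mdifferentiableAt
  have h5 : fderiv ℂ u 0 = 0 := by
    have hA : deriv (fun ζ => (u ζ).1) 0 = 0 := congrArg Prod.fst h0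
    have hB : deriv (fun ζ => (u ζ).2) 0 = 0 := congrArg Prod.snd h0
    have h6 : HasFDerivAt u (fderiv ℂ u 0) 0 := h2.hasFDerivAt
    have h7 : HasDerivAt (fun ζ => (u ζ).1) ((fderiv ℂ u 0 1).1) 0 := by
      have := h6.fst.hasDerivAt
      simpa using this
    have h8 : HasDerivAt (fun ζ => (u ζ).2) ((fderiv ℂ u 0 1).2) 0 := by
      have := h6.snd.hasDerivAt
      simpa using this
    rw [h7.deriv] at hA
    rw [h8.deriv] at hB
    ext1
    exact Prod.ext hA hB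
  rw [mfderiv_eq_fderiv, h5] at h4
  rw [h1.mfderiv_eq, h4]
  exact ContinuousLinearMap.comp_zero _

theorem isKahler_frm (hQ : IsQ X qq) [IsManifold 𝓘(ℂ, E) ω X] (hPLU : S_PLU) (hL : S_LEVI)
    (hP2 : S_POS2) : (frm hQ hPLU 1 5 one_pos).IsKahler := by
  rintro ⟨e, he⟩ r f hr hf hd
  have hc := disc_coord he subset_rfl hf
  have h1 := lap_levF hL (a := 1) (k := 5) one_pos hr hc.1 (fun ζ hζ => hQ.sub he (hc.2 ζ hζ))
  show 0 < laplaceAtZero (fun ζ => Psi 1 5 (e (f ζ)))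
  rw [h1]
  exact hP2 _ _ (hQ.sub he (hc.2 0 (mem_ball_self hr))) (deriv_coord_ne he subset_rfl hr hf hd)

/-! ### Functions on the quotient -/

theorem IsQ.descend (hQ : IsQ X qq) {T : Type} (U : E → T)
    (hU : ∀ (h : SL(2, ℝ)) (p : E), p ∈ UU → jj h p.2 ≠ 0 → U (FF h p) = U p) :
    ∃ u : X → T, (∀ g, ∀ p ∈ UU, u (qq g p) = U p) ∧
      ∀ e ∈ atlas E X, ∀ x ∈ e.source, u x = U (e x) := by
  have key : ∀ g, ∀ p ∈ UU, U (chartAt E (qq g p) (qq g p)) = U p := by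
    intro g p hp
    set x := qq g p with hx
    obtain ⟨g', h1, h2⟩ := hQ.atlas_spec (chartAt E x) (chart_mem_atlas E x)
    have h3 : chartAt E x x ∈ (chartAt E x).target := mem_chart_target E x
    have h4 : qq g p = qq g' (chartAt E x x) := by
      rw [← h2 _ h3, (chartAt E x).left_inv (mem_chart_source E x)]
    obtain ⟨γ, hγ, h5, h6⟩ := (hQ.eq_iff g g' p hp _ (h1 h3)).1 h4
    rw [h6]
    exact hU _ p hp h5
  refine ⟨fun x => U (chartAt E x x), key, ?_⟩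
  intro e he x hx
  obtain ⟨g', h1, h2⟩ := hQ.atlas_spec e he
  have h3 : e x ∈ e.target := e.map_source hx
  have h4 : x = qq g' (e x) := by
    rw [← h2 _ h3, e.left_inv hx]
  have h5 := key g' (e x) (h1 h3)
  rw [← h4] at h5
  exact h5

/-- The function `log (Q + a P) - log (Q + P)`. -/
noncomputable def Ua (a : ℝ) (p : E) : ℝ := Real.log (QQ p + a * PP p) - Real.log (QQ p + 1 * PP p)

theorem Ua_inv (hPLU : S_PLU) {a : ℝ} (ha : 0 < a) (h : SL(2, ℝ)) (p : E) (hp : p ∈ UU)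
    (hj : jj h p.2 ≠ 0) : Ua a (FF h p) = Ua a p := by
  have h1 := hPLU a 0 h p ha hp hj
  have h2 := hPLU 1 0 h p one_pos hp hj
  have e1 := h1.2.2.2
  have e2 := h2.2.2.2
  unfold Psi at e1 e2
  unfold Ua
  linarith

theorem isNef_frm (hQ : IsQ X qq) [IsManifold 𝓘(ℂ, E) ω X] (hPLU : S_PLU) (hL : S_LEVI)
    (hP3 : S_POS3) : IsNef (frm hQ hPLU 1 2 one_pos) (frm hQ hPLU 1 5 one_pos) := by
  intro ε hε
  have ha : 0 < 1 / ε := by positivity
  obtain ⟨u, -, hu⟩ := hQ.descend (Ua (1 / ε)) (Ua_inv hPLU ha)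
  have := hQ.isManifold_real
  refine ⟨u, ?_, ?_⟩
  · intro x
    have h1 : ContMDiffOn 𝓘(ℝ, E) 𝓘(ℝ, E) ∞ (chartAt E x) (chartAt E x).source :=
      contMDiffOn_of_mem_maximalAtlas (IsManifold.subset_maximalAtlas (chart_mem_atlas E x))
    have h2 : ContDiffOn ℝ ∞ (Ua (1 / ε)) UU := by
      unfold Ua
      exact ((contDiff_QQ.add (contDiff_const.mul contDiff_PP)).contDiffOn.log
        fun p hp => (N_pos ha hp).ne').sub
        ((contDiff_QQ.add (contDiff_const.mul contDiff_PP)).contDiffOn.log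
        fun p hp => (N_pos one_pos hp).ne')
    have h3 : ContMDiffOn 𝓘(ℝ, E) 𝓘(ℝ, ℝ) ∞ (Ua (1 / ε) ∘ chartAt E x) (chartAt E x).source :=
      h2.contMDiffOn.comp h1
        fun y hy => hQ.sub (chart_mem_atlas E x) ((chartAt E x).map_source hy)
    have h4 : ContMDiffAt 𝓘(ℝ, E) 𝓘(ℝ, ℝ) ∞ (Ua (1 / ε) ∘ chartAt E x) x :=
      h3.contMDiffAt ((chartAt E x).open_source.mem_nhds (mem_chart_source E x))
    refine h4.congr_of_eventuallyEq ?_
    filter_upwards [(chartAt E x).open_source.mem_nhds (mem_chart_source E x)] with y hy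
    exact hu _ (chart_mem_atlas E x) y hy
  · rintro ⟨e, he⟩ ⟨e', he'⟩ r f hr hf
    have hS : e.source ∩ e'.source ⊆ e.source := inter_subset_left
    have hS' : e.source ∩ e'.source ⊆ e'.source := inter_subset_right
    have hc := disc_coord he hS hf
    have hcU : ∀ ζ ∈ ball (0 : ℂ) r, e (f ζ) ∈ UU := fun ζ hζ => hQ.sub he (hc.2 ζ hζ)
    have hc' := disc_coord he' hS' hf
    have hcU' : ∀ ζ ∈ ball (0 : ℂ) r, e' (f ζ) ∈ UU := fun ζ hζ => hQ.sub he' (hc'.2 ζ hζ)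
    have hm := mem_ball_self (x := (0 : ℂ)) hr
    show -(ε * laplaceAtZero (fun ζ => Psi 1 5 (e' (f ζ)))) ≤
      laplaceAtZero (fun ζ => Psi 1 2 (e (f ζ)) + u (f ζ))
    have h1 : laplaceAtZero (fun ζ => Psi 1 2 (e (f ζ)) + u (f ζ)) =
        laplaceAtZero (fun ζ => Psi (1 / ε) 2 (e (f ζ))) := by
      refine laplace_congr hr fun ζ hζ => ?_
      rw [hu e he (f ζ) (hS (hf.2 hζ))]
      unfold Ua Psi
      ring
    have h2 := lap_charts hQ hPLU (a := 1) (k := 5) one_pos he he' hS hS' hr hf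
    have h3 := lap_add (c2_disc hc.1 hm (hcU 0 hm) (contDiffOn_Psi one_pos 5))
      (c2_disc hc'.1 hm (hcU' 0 hm) (contDiffOn_Psi one_pos 5)) (-1)
    have h4 : laplaceAtZero (fun ζ => Psi 1 5 (e (f ζ)) + -1 * Psi 1 5 (e' (f ζ))) = 0 := by
      rw [← h2]
      congr 1
      funext ζ
      ring
    rw [h4] at h3
    have h5 : laplaceAtZero (fun ζ => Psi 1 5 (e' (f ζ))) =
        laplaceAtZero (fun ζ => Psi 1 5 (e (f ζ))) := by linarith
    rw [h1, h5, lap_levF hL one_pos hr hc.1 hcU, lap_levF hL ha hr hc.1 hcU]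
    exact hP3.2.2 ε hε _ _ (hcU 0 hm)

end quot

end Pool.Agent.Run7.h532.KS
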