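import Pool.Agent.Run7.h532.KS.Wrap

/-!
# The class is big; the class is not semipositive; the final assembly
-/

set_option autoImplicit false

open scoped Manifold ContDiff Topology ComplexConjugate MatrixGroups UpperHalfPlane Matrix
open Set Filter Metric

namespace Pool.Agent.Run7.h532.KS

open Pool.Agent.PNB (laplaceAtZero ClosedForm IsHolDisc IsPshOn laplace_congr laplace_comb
  laplace_sum laplace_const_mul contDiff_normSq elog elog_zero elog_of_pos elog_lt_top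
  continuous_elog usc_add_real)
open Pool.Agent.W711.KC (jj nn CG jj_ne)
open Pool.Agent.H816_Nef (laplaceAtZero_eq J1_lap_scale mean_C2)

/-! ### The potential of the Kähler current -/

/-- The function `1/2 log (P / (Q + P))`. -/
noncomputable def Ub (p : E) : EReal := elog (Real.sqrt (PP p / (QQ p + 1 * PP p)))

theorem Ub_lt_top (p : E) : Ub p < ⊤ := elog_lt_top _

theorem Ub_zero {p : E} (h : PP p = 0) : Ub p = ⊥ := by
  unfold Ub
  rw [h, zero_div, Real.sqrt_zero, elog_zero]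

theorem Ub_pos {p : E} (hp : p ∈ UU) (h : PP p ≠ 0) : Ub p =
    (((1 / 2) * (Real.log (PP p) - Real.log (QQ p + 1 * PP p)) : ℝ) : EReal) := by
  unfold Ub
  have h1 : 0 < PP p := lt_of_le_of_ne (PP_nonneg p) (Ne.symm h)
  have h2 := N_pos one_pos hp
  rw [elog_of_pos (Real.sqrt_pos.2 (div_pos h1 h2)), Real.log_sqrt (div_pos h1 h2).le,
    Real.log_div h1.ne' h2.ne']
  congr 1
  ring

theorem continuousOn_Ub : ContinuousOn Ub UU := by
  unfold Ub
  refine continuous_elog.comp_continuousOn (Real.continuous_sqrt.comp_continuousOn ?_)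
  exact contDiff_PP.continuous.continuousOn.div
    (contDiff_QQ.continuous.add (continuous_const.mul contDiff_PP.continuous)).continuousOn
    fun p hp => (N_pos one_pos hp).ne'

theorem Ub_inv (hPLU : S_PLU) (h : SL(2, ℝ)) (p : E) (hp : p ∈ UU)
    (hj : jj h p.2 ≠ 0) : Ub (FF h p) = Ub p := by
  obtain ⟨-, h1, h2, -⟩ := hPLU 1 0 h p one_pos hp hj
  unfold Ub
  congr 2
  rw [h1, h2, one_mul, one_mul, ← add_div, div_div_div_cancel_right₀]
  exact mul_ne_zero (by simpa using jj_ne h hp) (by simpa using hj)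

theorem contDiffAt_coord {c : ℂ → E} {r : ℝ} (hc : DifferentiableOn ℂ c (ball 0 r)) {ζ₀ : ℂ}
    (hζ₀ : ζ₀ ∈ ball (0 : ℂ) r) : ContDiffAt ℝ 2 c ζ₀ := by
  have h1 : ContDiffAt ℂ 2 c ζ₀ := (hc.analyticAt (isOpen_ball.mem_nhds hζ₀)).contDiffAt
  exact h1.restrict_scalars ℝ

/-- The difference of the potentials of the Kähler form in two charts has the mean value property
along discs. -/
theorem mean_diff (hPLU : S_PLU) {k r : ℝ} (hr : 1 < r) {c c' : ℂ → E}
    (hc : DifferentiableOn ℂ c (ball 0 r)) (hU : ∀ ζ ∈ ball (0 : ℂ) r, c ζ ∈ UU)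
    (hc' : DifferentiableOn ℂ c' (ball 0 r)) (hU' : ∀ ζ ∈ ball (0 : ℂ) r, c' ζ ∈ UU)
    (htr : ∀ ζ₀ ∈ ball (0 : ℂ) r, ∃ h : SL(2, ℝ), jj h (c ζ₀).2 ≠ 0 ∧
      ∀ᶠ ζ in 𝓝 ζ₀, c' ζ = FF h (c ζ)) :
    Real.circleAverage (fun ζ => Psi 1 k (c ζ) - Psi 1 k (c' ζ)) 0 1 =
      Psi 1 k (c 0) - Psi 1 k (c' 0) := by
  set D : ℂ → ℝ := fun ζ => Psi 1 k (c ζ) - Psi 1 k (c' ζ) with hD
  have hDc : ∀ ζ ∈ ball (0 : ℂ) r, ContDiffAt ℝ 2 D ζ := fun ζ hζ =>
    (c2_disc hc hζ (hU ζ hζ) (contDiffOn_Psi one_pos k)).sub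
      (c2_disc hc' hζ (hU' ζ hζ) (contDiffOn_Psi one_pos k))
  refine mean_C2 (z := 0) (R' := r) (fun ζ hζ => (hDc ζ hζ).contDiffWithinAt) one_pos hr ?_
  intro ζ₀ hζ₀
  obtain ⟨h, h1, h2⟩ := htr ζ₀ hζ₀
  have hr' : 0 < r - ‖ζ₀‖ := by
    rw [mem_ball_zero_iff] at hζ₀
    linarith
  have hsub : ∀ η ∈ ball (0 : ℂ) (r - ‖ζ₀‖), ζ₀ + η ∈ ball (0 : ℂ) r := by
    intro η hη
    rw [mem_ball_zero_iff] at hη ⊢
    linarith [norm_add_le ζ₀ η]
  have h3 : DifferentiableOn ℂ (fun η => c (ζ₀ + η)) (ball 0 (r - ‖ζ₀‖)) :=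
    hc.comp ((differentiableOn_const _).add differentiableOn_id) hsub
  have h4 : ∀ᶠ η in 𝓝 (0 : ℂ), c' (ζ₀ + η) = FF h (c (ζ₀ + η)) := by
    have h5 : Tendsto (fun η : ℂ => ζ₀ + η) (𝓝 0) (𝓝 ζ₀) := by
      have : Continuous fun η : ℂ => ζ₀ + η := by fun_prop
      simpa using this.tendsto 0
    exact h5.eventually h2
  have h6 := lap_plu hPLU (a := 1) (k := k) one_pos hr' h3 (fun η hη => hU _ (hsub η hη))
    (by simpa using h1) h4
  have h7 : laplaceAtZero (fun η => D (ζ₀ + η)) = 0 := h6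
  have h8 : ContDiffAt ℝ 2 (fun η => D (ζ₀ + η)) 0 := by
    have h9 : ContDiffAt ℝ 2 D (ζ₀ + 0) := by
      rw [add_zero]
      exact hDc ζ₀ hζ₀
    exact ContDiffAt.comp (g := D) (f := fun η : ℂ => ζ₀ + η) 0 h9
      (contDiffAt_const.add contDiffAt_id)
  rw [laplaceAtZero_eq h8] at h7
  have h10 := J1_lap_scale D ζ₀ 1 one_ne_zero 0
  simp only [one_smul, add_zero, one_pow, one_mul] at h10
  rw [← h10]
  exact h7

/-- The retraction onto the unit disc. -/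
noncomputable def retr (ζ : ℂ) : ℂ := ((max 1 ‖ζ‖)⁻¹ : ℝ) • ζ

theorem continuous_retr : Continuous retr := by
  unfold retr
  have h1 : Continuous fun ζ : ℂ => max (1 : ℝ) ‖ζ‖ := continuous_const.max continuous_norm
  exact (h1.inv₀ fun ζ => by positivity).smul continuous_id

theorem norm_retr (ζ : ℂ) : ‖retr ζ‖ ≤ 1 := by
  unfold retr
  rw [norm_smul, Real.norm_of_nonneg (by positivity), inv_mul_le_iff₀ (by positivity), mul_one]
  exact le_max_right _ _

theorem retr_of_le {ζ : ℂ} (h : ‖ζ‖ ≤ 1) : retr ζ = ζ := by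
  unfold retr
  rw [max_eq_left h, inv_one, one_smul]

theorem psh_disc (hPLU : S_PLU) (hJ : S_JEN) {r : ℝ} (hr : 1 < r) {c c' : ℂ → E}
    (hc : DifferentiableOn ℂ c (ball 0 r)) (hU : ∀ ζ ∈ ball (0 : ℂ) r, c ζ ∈ UU)
    (hc' : DifferentiableOn ℂ c' (ball 0 r)) (hU' : ∀ ζ ∈ ball (0 : ℂ) r, c' ζ ∈ UU)
    (htr : ∀ ζ₀ ∈ ball (0 : ℂ) r, ∃ h : SL(2, ℝ), jj h (c ζ₀).2 ≠ 0 ∧
      ∀ᶠ ζ in 𝓝 ζ₀, c' ζ = FF h (c ζ)) {g : ℂ → ℝ} (hg : Continuous g)
    (hle : ∀ ζ : ℂ, ‖ζ‖ = 1 → Ub (c ζ) + ((Psi 1 2 (c ζ) - 1 / 4 * Psi 1 5 (c' ζ) : ℝ) : EReal) ≤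
      ((g ζ : ℝ) : EReal)) :
    Ub (c 0) + ((Psi 1 2 (c 0) - 1 / 4 * Psi 1 5 (c' 0) : ℝ) : EReal) ≤
      ((Real.circleAverage g 0 1 : ℝ) : EReal) := by
  have h0r : (0 : ℂ) ∈ ball (0 : ℂ) r := mem_ball_self (by linarith)
  by_cases h0 : PP (c 0) = 0
  · rw [Ub_zero h0, EReal.bot_add]
    exact bot_le
  have hPne : ∀ p : E, PP p ≠ 0 ↔ p.2 ≠ p.1 := by
    intro p
    unfold PP
    rw [ne_eq, Complex.normSq_eq_zero, sub_eq_zero]
  have hcl : ∀ ζ : ℂ, ‖ζ‖ ≤ 1 → ζ ∈ ball (0 : ℂ) r := by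
    intro ζ hζ
    rw [mem_ball_zero_iff]
    linarith
  set D : ℂ → ℝ := fun ζ => Psi 1 5 (c ζ) - Psi 1 5 (c' ζ) with hD
  have hDc : ContinuousOn D (ball 0 r) := by
    intro ζ hζ
    exact ((c2_disc hc hζ (hU ζ hζ) (contDiffOn_Psi one_pos 5)).sub
      (c2_disc hc' hζ (hU' ζ hζ) (contDiffOn_Psi one_pos 5))).continuousAt.continuousWithinAt
  have hDm := mean_diff hPLU (k := 5) hr hc hU hc' hU' htr
  set G : ℂ → ℝ := fun ζ => g ζ + -(1 / 4) * D (retr ζ) with hG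
  have hDr : Continuous fun ζ => D (retr ζ) := by
    rw [← continuousOn_univ]
    exact hDc.comp continuous_retr.continuousOn fun ζ _ => hcl _ (norm_retr ζ)
  have hGc : Continuous G := hg.add (continuous_const.mul hDr)
  have key := hJ r (fun ζ => (c ζ).1) (fun ζ => (c ζ).2) G hr hc.fst hc.snd hU hGc ?_
    ((hPne _).1 h0)
  · have hav : Real.circleAverage G 0 1 = Real.circleAverage g 0 1 + -(1 / 4) * D 0 := by
      have e1 : Real.circleAverage (fun ζ => -(1 / 4) * D (retr ζ)) 0 1 = -(1 / 4) * D 0 := by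
        have e2 := Real.circleAverage_fun_smul (a := (-(1 / 4) : ℝ)) (f := fun ζ => D (retr ζ))
          (c := 0) (R := 1)
        simp only [smul_eq_mul] at e2
        rw [e2]
        congr 1
        refine Eq.trans ?_ hDm
        refine Real.circleAverage_congr_sphere fun ζ hζ => ?_
        have : ‖ζ‖ = 1 := by simpa using hζ
        show D (retr ζ) = D ζ
        rw [retr_of_le this.le]
      have e3 := Real.circleAverage_fun_add (c := 0) (R := 1) (f₁ := g)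
        (f₂ := fun ζ => -(1 / 4) * D (retr ζ)) hg.continuousOn.circleIntegrable'
        (continuous_const.mul hDr).continuousOn.circleIntegrable'
      rw [← e1, ← e3]
    rw [Ub_pos (hU 0 h0r) h0, ← EReal.coe_add, EReal.coe_le_coe_iff]
    rw [hav] at key
    have hD0 : D 0 = Psi 1 5 (c 0) - Psi 1 5 (c' 0) := rfl
    rw [hD0] at key
    have e5 : Psi 1 5 (c 0) = Real.log (QQ (c 0) + 1 * PP (c 0)) - 5 * Real.log (c 0).1.im := rfl
    have e3 : Psi 1 3 ((c 0).1, (c 0).2) =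
      Real.log (QQ (c 0) + 1 * PP (c 0)) - 3 * Real.log (c 0).1.im := rfl
    have e2 : Psi 1 2 (c 0) = Real.log (QQ (c 0) + 1 * PP (c 0)) - 2 * Real.log (c 0).1.im := rfl
    have e6 : PP ((c 0).1, (c 0).2) = PP (c 0) := rfl
    rw [e3, e6, e5] at key
    rw [e2]
    linarith
  · intro ζ hζ hne
    have hζr := hcl ζ hζ.le
    have h1 : PP (c ζ) ≠ 0 := (hPne _).2 hne
    have h2 := hle ζ hζ
    rw [Ub_pos (hU ζ hζr) h1, ← EReal.coe_add, EReal.coe_le_coe_iff] at h2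
    have hDζ : D (retr ζ) = Psi 1 5 (c ζ) - Psi 1 5 (c' ζ) := by rw [retr_of_le hζ.le]
    show 1 / 2 * Real.log (PP ((c ζ).1, (c ζ).2)) + 1 / 4 * Psi 1 3 ((c ζ).1, (c ζ).2) ≤
      g ζ + -(1 / 4) * D (retr ζ)
    rw [hDζ]
    have e5 : Psi 1 5 (c ζ) = Real.log (QQ (c ζ) + 1 * PP (c ζ)) - 5 * Real.log (c ζ).1.im := rfl
    have e3 : Psi 1 3 ((c ζ).1, (c ζ).2) =
      Real.log (QQ (c ζ) + 1 * PP (c ζ)) - 3 * Real.log (c ζ).1.im := rfl
    have e2 : Psi 1 2 (c ζ) = Real.log (QQ (c ζ) + 1 * PP (c ζ)) - 2 * Real.log (c ζ).1.im := rfl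
    have e6 : PP ((c ζ).1, (c ζ).2) = PP (c ζ) := rfl
    rw [e3, e6, e5]
    rw [e2] at h2
    linarith

section quot

variable {X : Type} [TopologicalSpace X] [ChartedSpace E X] {qq : SL(2, ℝ) → E → X}

theorem isBig_frm (hQ : IsQ X qq) [IsManifold 𝓘(ℂ, E) ω X] (hPLU : S_PLU) (hJ : S_JEN) :
    (frm hQ hPLU 1 2 one_pos).IsBig (frm hQ hPLU 1 5 one_pos) := by
  obtain ⟨u, hu1, hu2⟩ := hQ.descend Ub (Ub_inv hPLU)
  refine ⟨1 / 4, u, by norm_num, ?_, ?_⟩
  · have hp : ((Complex.I, 0) : E) ∈ UU := by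
      show 0 < Complex.I.im
      simp
    refine ⟨qq 1 (Complex.I, 0), ?_⟩
    rw [hu1 1 _ hp, Ub_pos hp (by simp [PP])]
    exact EReal.coe_ne_bot _
  · rintro ⟨e, he⟩ ⟨e', he'⟩
    have hS : e.source ∩ e'.source ⊆ e.source := inter_subset_left
    have hS' : e.source ∩ e'.source ⊆ e'.source := inter_subset_right
    refine ⟨?_, ?_, ?_⟩
    · intro x hx
      refine EReal.add_lt_top ?_ (EReal.coe_ne_top _)
      rw [hu2 e he x (hS hx)]
      exact (Ub_lt_top _).ne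
    · refine usc_add_real ?_ ?_
      · have h1 : ContinuousOn u (e.source ∩ e'.source) := by
          have h2 : ContinuousOn (fun x => Ub (e x)) e.source :=
            continuousOn_Ub.comp e.continuousOn fun x hx => hQ.sub he (e.map_source hx)
          exact (h2.mono hS).congr fun x hx => hu2 e he x (hS hx)
        exact h1.upperSemicontinuousOn
      · show ContinuousOn (fun x => Psi 1 2 (e x) - 1 / 4 * Psi 1 5 (e' x))
          (e.source ∩ e'.source)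
        refine ContinuousOn.sub ?_ (continuousOn_const.mul ?_)
        · exact ((contDiffOn_Psi one_pos 2).continuousOn.comp e.continuousOn
            fun x hx => hQ.sub he (e.map_source hx)).mono hS
        · exact ((contDiffOn_Psi one_pos 5).continuousOn.comp e'.continuousOn
            fun x hx => hQ.sub he' (e'.map_source hx)).mono hS'
    · intro r f hr hf g hg hle
      have hc := disc_coord he hS hf
      have hc' := disc_coord he' hS' hf
      have hcU : ∀ ζ ∈ ball (0 : ℂ) r, e (f ζ) ∈ UU := fun ζ hζ => hQ.sub he (hc.2 ζ hζ)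
      have hcU' : ∀ ζ ∈ ball (0 : ℂ) r, e' (f ζ) ∈ UU := fun ζ hζ => hQ.sub he' (hc'.2 ζ hζ)
      have h0r : (0 : ℂ) ∈ ball (0 : ℂ) r := mem_ball_self (by linarith)
      have h1 := psh_disc hPLU hJ hr hc.1 hcU hc'.1 hcU'
        (fun ζ₀ hζ₀ => disc_trans hQ he he' hS hS' hf hζ₀) hg (by
          intro ζ hζ
          have hζr : ζ ∈ ball (0 : ℂ) r := by
            rw [mem_ball_zero_iff, hζ]
            exact hr
          have h2 := hle ζ hζ
          have h3 := hu2 e he (f ζ) (hS (hf.2 hζr))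
          simp only at h2
          rw [h3] at h2
          exact h2)
      have h3 := hu2 e he (f 0) (hS (hf.2 h0r))
      simp only
      rw [h3]
      exact h1

theorem not_semipositive_frm (hQ : IsQ X qq) [IsManifold 𝓘(ℂ, E) ω X] (hPLU : S_PLU)
    (hL : S_LEVI) (hN : S_NOT) : ¬ HasSemipositive (frm hQ hPLU 1 2 one_pos) := by
  rintro ⟨u, hu, hpos⟩
  have hR := hQ.isManifold_real
  refine hN (fun p => u (qq 1 p)) ?_ ?_ ?_
  · intro p hp
    obtain ⟨e, he, hpe, -, heq⟩ := hQ.exists_chart 1 p hp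
    have h1 : ContMDiffOn 𝓘(ℝ, E) 𝓘(ℝ, E) ∞ e.symm e.target :=
      contMDiffOn_symm_of_mem_maximalAtlas (IsManifold.subset_maximalAtlas he)
    have h2 : ContMDiffAt 𝓘(ℝ, E) 𝓘(ℝ, ℝ) ∞ (u ∘ e.symm) p :=
      (hu (e.symm p)).comp p ((h1 p hpe).contMDiffAt (e.open_target.mem_nhds hpe))
    apply ContDiffAt.contDiffWithinAt
    refine h2.contDiffAt.congr_of_eventuallyEq ?_
    filter_upwards [e.open_target.mem_nhds hpe] with p' hp'
    show u (qq 1 p') = u (e.symm p')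
    rw [heq p' hp']
  · intro γ hγ p hp hj
    have h1 : qq 1 p = qq 1 (FF γ p) := by
      rw [hQ.eq_iff 1 1 p hp _ (FF_mem hp)]
      refine ⟨γ, hγ, ?_, ?_⟩
      · rw [inv_one, one_mul, mul_one]
        exact hj
      · rw [inv_one, one_mul, mul_one]
    show u (qq 1 (FF γ p)) = u (qq 1 p)
    rw [h1]
  · intro p hp v
    obtain ⟨e, he, hpe, heU, heq⟩ := hQ.exists_chart 1 p hp
    have hcont : Continuous fun ζ : ℂ => p + ζ • v := by fun_prop
    have hnh : ∀ᶠ ζ in 𝓝 (0 : ℂ), p + ζ • v ∈ e.target := by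
      apply hcont.continuousAt.eventually_mem
      rw [zero_smul, add_zero]
      exact e.open_target.mem_nhds hpe
    obtain ⟨r, hr, hrb⟩ := Metric.mem_nhds_iff.1 hnh
    have hd : DifferentiableOn ℂ (fun ζ : ℂ => p + ζ • v) (ball 0 r) := by fun_prop
    have hdisc : IsHolDisc E e.source r (fun ζ : ℂ => e.symm (p + ζ • v)) := by
      refine ⟨?_, fun ζ hζ => e.map_target (hrb hζ)⟩
      have h1 : ContMDiffOn 𝓘(ℂ, E) 𝓘(ℂ, E) ω e.symm e.target :=
        contMDiffOn_symm_of_mem_maximalAtlas (IsManifold.subset_maximalAtlas he)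
      have h2 : ContDiff ℂ ω (fun ζ : ℂ => p + ζ • v) := by fun_prop
      exact h1.comp h2.contMDiff.contMDiffOn fun ζ hζ => hrb hζ
    have h1 := hpos ⟨e, he⟩ r _ hr hdisc
    have h2 : laplaceAtZero (fun ζ : ℂ => Psi 1 2 (e (e.symm (p + ζ • v))) +
        u (e.symm (p + ζ • v))) =
        laplaceAtZero (fun ζ : ℂ => Psi 1 2 (p + ζ • v) + 1 * u (qq 1 (p + ζ • v))) := by
      refine laplace_congr hr fun ζ hζ => ?_
      rw [e.right_inv (hrb hζ), heq _ (hrb hζ), one_mul]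
    have h3 : 0 ≤ laplaceAtZero (fun ζ : ℂ => Psi 1 2 (p + ζ • v) + 1 * u (qq 1 (p + ζ • v))) := by
      rw [← h2]
      exact h1
    have hp0 : p + (0 : ℂ) • v ∈ UU := by
      rw [zero_smul, add_zero]
      exact hp
    have hw : ContDiffAt ℝ 2 (fun ζ : ℂ => u (qq 1 (p + ζ • v))) 0 := by
      have h4 : ContMDiffOn 𝓘(ℝ, E) 𝓘(ℝ, E) ∞ e.symm e.target :=
        contMDiffOn_symm_of_mem_maximalAtlas (IsManifold.subset_maximalAtlas he)
      have h5 : ContMDiffAt 𝓘(ℝ, E) 𝓘(ℝ, ℝ) ∞ (u ∘ e.symm) p :=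
        (hu (e.symm p)).comp p ((h4 p hpe).contMDiffAt (e.open_target.mem_nhds hpe))
      have h6 : ContDiffAt ℝ 2 (u ∘ e.symm) (p + (0 : ℂ) • v) := by
        rw [zero_smul, add_zero]
        exact h5.contDiffAt.of_le (WithTop.coe_le_coe.2 le_top)
      have h7 : ContDiffAt ℝ 2 (fun ζ : ℂ => (u ∘ e.symm) (p + ζ • v)) 0 :=
        ContDiffAt.comp (g := u ∘ e.symm) (f := fun ζ : ℂ => p + ζ • v) 0 h6
          (contDiffAt_coord hd (mem_ball_self hr))
      refine h7.congr_of_eventuallyEq ?_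
      filter_upwards [hnh] with ζ hζ
      show u (qq 1 (p + ζ • v)) = u (e.symm (p + ζ • v))
      rw [heq _ hζ]
    rw [lap_add (c2_disc hd (mem_ball_self hr) hp0 (contDiffOn_Psi one_pos 2)) hw,
      lap_levF hL one_pos hr hd (fun ζ hζ => heU (hrb hζ)), one_mul] at h3
    have e1 : deriv (fun ζ : ℂ => (p + ζ • v).1) 0 = v.1 := by
      have h8 : HasDerivAt (fun ζ : ℂ => p.1 + ζ * v.1) (1 * v.1) 0 :=
        ((hasDerivAt_id (0 : ℂ)).mul_const v.1).const_add p.1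
      rw [one_mul] at h8
      exact h8.deriv
    have e2 : deriv (fun ζ : ℂ => (p + ζ • v).2) 0 = v.2 := by
      have h8 : HasDerivAt (fun ζ : ℂ => p.2 + ζ * v.2) (1 * v.2) 0 :=
        ((hasDerivAt_id (0 : ℂ)).mul_const v.2).const_add p.2
      rw [one_mul] at h8
      exact h8.deriv
    rw [e1, e2, zero_smul, add_zero] at h3
    exact h3

end quot

/-- The final assembly. -/
theorem t_FIN (hPLU : S_PLU) (hL : S_LEVI) (hP2 : S_POS2) (hP3 : S_POS3) (hJ : S_JEN)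
    (hN : S_NOT) : S_FIN := by
  obtain ⟨X, iT, iC, iH, iConn, iCh, iMan, qq, hQ⟩ := t_MAN
  exact ⟨X, iT, iH, iC, iConn, iCh, iMan, frm hQ hPLU 1 5 one_pos, frm hQ hPLU 1 2 one_pos,
    isKahler_frm hQ hPLU hL hP2, isNef_frm hQ hPLU hL hP3, isBig_frm hQ hPLU hJ,
    not_semipositive_frm hQ hPLU hL hN⟩

end Pool.Agent.Run7.h532.KS
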